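import Pool.Agent.H88.GN.Ra
import Pool.Agent.H26.GN.G2
import Pool.Agent.H30.OD.De

/-!
Let `N / K` be a finite Galois extension of number fields and let `E_j : y² = x³ + A_j x + B_j`, `j ∈ J`,
be finitely many elliptic curves over `K` such that `x³ + A_j x + B_j` has no root in `K` and the
discriminants are independent modulo squares in `N`.  The quadratic twists by infinitely many elements
`D` near to `D₀` have finite groups of points of odd order and Tate-Shafarevich groups with trivial
two-primary part over all number fields between `K` and `N` if and only if the twists by `D₀` satisfy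
local conditions and their two-Selmer groups over `N` are balanced modules for the Galois group of
`N / K`.
-/

set_option autoImplicit false
open scoped Classical

namespace Pool.Agent.Results.MP_78d38b_nt.GaloisTwists

open NumberField WeierstrassCurve IsDedekindDomain Pool.Agent.H10

/-- The pairs `(A, B)` of algebraic integers of `K` of height at most `X`: the absolute values of all
complex conjugates of `A` are at most `X²` and those of `B` are at most `X³`. -/
def Box (K : Type) [Field K] [NumberField K] (X : ℝ) : Set (𝓞 K × 𝓞 K) :=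
  {p | ∀ s : K →+* ℂ, ‖s (p.1 : K)‖ ≤ X ^ 2 ∧ ‖s (p.2 : K)‖ ≤ X ^ 3}

/-- The Galois group of `N / K` has a normal Sylow 2-subgroup. -/
def NormalSylow (K N : Type) [Field K] [Field N] [Algebra K N] : Prop :=
  ∃ P : Sylow 2 (N ≃ₐ[K] N), (P : Subgroup (N ≃ₐ[K] N)).Normal

section Cocycles

variable {k : Type} [Field k] [NumberField k]

/-- Functions on the Galois group of `k` with values in `W(k̄)`. -/
abbrev Fun (W : WeierstrassCurve k) : Type :=
  (AlgebraicClosure k ≃ₐ[k] AlgebraicClosure k) →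
    (W.baseChange (AlgebraicClosure k)).toAffine.Point

/-- The locally constant one-cocycles with values in the points killed by two which become
coboundaries in `W` over all completions of `k`. -/
def IsSel (W : WeierstrassCurve k) (f : Fun W) : Prop :=
  IsCocycle k W f ∧ IsLocTriv k W f ∧ ∀ σ, f σ + f σ = 0

/-- The coboundaries of the points killed by two. -/
def IsCob (W : WeierstrassCurve k) (f : Fun W) : Prop :=
  ∃ T : (W.baseChange (AlgebraicClosure k)).toAffine.Point,
    T + T = 0 ∧ ∀ σ : AlgebraicClosure k ≃ₐ[k] AlgebraicClosure k,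
      f σ = (WeierstrassCurve.Affine.Point.map σ.toAlgHom :
        (W.baseChange (AlgebraicClosure k)).toAffine.Point →+
          (W.baseChange (AlgebraicClosure k)).toAffine.Point) T - T

/-- The difference is the coboundary of a point killed by two. -/
def Cohom (W : WeierstrassCurve k) (f g : {f : Fun W // IsSel W f}) : Prop :=
  IsCob W (f.1 - g.1)

variable (K : Type) [Field K] [Algebra K k]

/-- `Q = s P` for the automorphism `s` of the algebraic closure of `k` over `K`. -/
def Moved (W : WeierstrassCurve k) (s : AlgebraicClosure k ≃ₐ[K] AlgebraicClosure k)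
    (P Q : (W.baseChange (AlgebraicClosure k)).toAffine.Point) : Prop :=
  (P = 0 ∧ Q = 0) ∨ ∃ (x y : AlgebraicClosure k)
    (h : (W.baseChange (AlgebraicClosure k)).toAffine.Nonsingular x y)
    (h' : (W.baseChange (AlgebraicClosure k)).toAffine.Nonsingular (s x) (s y)),
    P = .some x y h ∧ Q = .some (s x) (s y) h'

/-- `f'(τ) = s (f (s⁻¹ τ s))` for all `τ`. -/
def IsConj (W : WeierstrassCurve k) (s : AlgebraicClosure k ≃ₐ[K] AlgebraicClosure k)
    (f f' : Fun W) : Prop :=
  ∀ τ τ' : AlgebraicClosure k ≃ₐ[k] AlgebraicClosure k, (∀ x, s (τ' x) = τ (s x)) →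
    Moved K W s (f τ') (f' τ)

/-- `U` is the preimage of a subgroup of the two-Selmer group of `W` which is stable under the
automorphisms of `k / K`. -/
def Submod (W : WeierstrassCurve k) (U : AddSubgroup (Fun W)) : Prop :=
  (∀ f, IsCob W f → f ∈ U) ∧ (∀ f ∈ U, IsSel W f) ∧
    ∀ s : AlgebraicClosure k ≃ₐ[K] AlgebraicClosure k, ∀ f ∈ U, ∀ f', IsConj K W s f f' → f' ∈ U

/-- The preimage of the socle of the two-Selmer group of `W`, the sum of the simple submodules. -/
noncomputable def Socle (W : WeierstrassCurve k) : AddSubgroup (Fun W) :=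
  sSup {U | Submod K W U ∧
    ∀ U' : AddSubgroup (Fun W), U' ≤ U → Submod K W U' → (∀ f ∈ U', IsCob W f) ∨ U' = U}

end Cocycles

variable {K : Type} [Field K] [NumberField K]

/-- The quadratic twist `E_D : y² = x³ + D² A x + D³ B` over the extension `M` of `K`, where
`p = (A, B)`. -/
def curve (p : 𝓞 K × 𝓞 K) (D : K) (M : Type) [Field M] [Algebra K M] : WeierstrassCurve M :=
  ⟨0, 0, 0, algebraMap K M (D ^ 2 * p.1), algebraMap K M (D ^ 3 * p.2)⟩

/-- The group `E_D(M)` is finite of odd order and the Tate-Shafarevich group of `E_D` over `M` has no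
nontrivial element of two-power order. -/
def Triv (p : 𝓞 K × 𝓞 K) (D : K) (M : Type) [Field M] [NumberField M] [Algebra K M] : Prop :=
  Finite (curve p D M).toAffine.Point ∧ Odd (Nat.card (curve p D M).toAffine.Point) ∧
    Sha2Trivial M (curve p D M)

/-- `Triv` holds over all number fields between `K` and `N`. -/
def TrivOver (N : Type) [Field N] [Algebra K N] (p : 𝓞 K × 𝓞 K) (D : K) : Prop :=
  ∀ (M : Type) [Field M] [NumberField M] [Algebra K M] [Algebra M N] [IsScalarTower K M N],
    Triv p D M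

/-- The socle of the two-Selmer group of `E_D` over `N` as a module over the Galois group of `N / K`
has an invariant bilinear form `β` with values in `ZMod 2` such that the form `β(f, g) + β(g, f)` is
nondegenerate. -/
def Balanced (N : Type) [Field N] [NumberField N] [Algebra K N] (p : 𝓞 K × 𝓞 K) (D : K) : Prop :=
  ∃ β : Fun (curve p D N) → Fun (curve p D N) → ZMod 2,
    (∀ f ∈ Socle K (curve p D N), ∀ f' ∈ Socle K (curve p D N), ∀ g ∈ Socle K (curve p D N),
      β (f + f') g = β f g + β f' g ∧ β g (f + f') = β g f + β g f') ∧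
    (∀ s : AlgebraicClosure N ≃ₐ[K] AlgebraicClosure N, ∀ f ∈ Socle K (curve p D N),
      ∀ g ∈ Socle K (curve p D N), ∀ f' g' : Fun (curve p D N),
      IsConj K (curve p D N) s f f' → IsConj K (curve p D N) s g g' → β f' g' = β f g) ∧
    (∀ f, IsCob (curve p D N) f → ∀ g ∈ Socle K (curve p D N), β f g = 0 ∧ β g f = 0) ∧
    ∀ f ∈ Socle K (curve p D N), (∀ g ∈ Socle K (curve p D N), β f g + β g f = 0) →
      IsCob (curve p D N) f

/-- The two-Selmer rank of `E_D` over `K` is even: the two-Selmer group of `E_D` over `K` has order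
`4 ^ k` for some `k`. -/
def EvenRank (p : 𝓞 K × 𝓞 K) (D : K) : Prop :=
  ∃ k : ℕ, Nat.card (Quot (Cohom (curve p D K))) = 4 ^ k

/-- The cocycle `f` of the Galois group of `k` in `W` becomes a coboundary over the extension `L`
of `k`. -/
def TrivialOver (k L : Type) [Field k] [NumberField k] [Field L] [Algebra k L]
    (W : WeierstrassCurve k) (f : (AlgebraicClosure k ≃ₐ[k] AlgebraicClosure k) →
      (W.baseChange (AlgebraicClosure k)).toAffine.Point) : Prop :=
  ∀ ι : AlgebraicClosure k →ₐ[k] AlgebraicClosure L,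
    ∃ P : (W.baseChange (AlgebraicClosure L)).toAffine.Point,
    ∀ τ : AlgebraicClosure L ≃ₐ[L] AlgebraicClosure L,
    ∀ σ : AlgebraicClosure k ≃ₐ[k] AlgebraicClosure k,
      (τ.toAlgHom.restrictScalars k).comp ι = ι.comp σ.toAlgHom →
      (WeierstrassCurve.Affine.Point.map ι :
        (W.baseChange (AlgebraicClosure k)).toAffine.Point →+
          (W.baseChange (AlgebraicClosure L)).toAffine.Point) (f σ) =
        (WeierstrassCurve.Affine.Point.map (τ.toAlgHom.restrictScalars k) :
          (W.baseChange (AlgebraicClosure L)).toAffine.Point →+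
            (W.baseChange (AlgebraicClosure L)).toAffine.Point) P - P

/-- The completion of `k'` at `w` as an extension of the subfield `k` of `k'`. -/
noncomputable abbrev compl (k k' : Type) [Field k] [Field k'] [NumberField k'] [Algebra k k']
    (w : HeightOneSpectrum (𝓞 k')) : Algebra k (w.adicCompletion k') :=
  ((algebraMap k' (w.adicCompletion k')).comp (algebraMap k k')).toAlgebra

/-- The local condition for `E_D` at the prime `v` of `K`: for all number fields `k ≤ k'` between `K`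
and `N` with `[k' : k] = 2`, every class of `H¹(k, E_D)` killed by two which is trivial over the
completions of `k'` at all the places above `v` is trivial over the completions of `k` at all the places
above `v`. -/
def Loc (N : Type) [Field N] [Algebra K N] (v : HeightOneSpectrum (𝓞 K)) (p : 𝓞 K × 𝓞 K) (D : K) :
    Prop :=
  ∀ (k k' : Type) [Field k] [NumberField k] [Field k'] [NumberField k'] [Algebra K k] [Algebra K k']
    [Algebra k k'] [IsScalarTower K k k'] [Algebra k' N] [IsScalarTower K k' N],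
    Module.finrank k k' = 2 → ∀ f : (AlgebraicClosure k ≃ₐ[k] AlgebraicClosure k) →
      ((curve p D k).baseChange (AlgebraicClosure k)).toAffine.Point,
    IsCocycle k (curve p D k) f → IsCobound k (curve p D k) (fun σ => 2 • f σ) →
    (∀ w : HeightOneSpectrum (𝓞 k'), w.asIdeal.under (𝓞 K) = v.asIdeal →
      @TrivialOver k (w.adicCompletion k') _ _ _ (compl k k' w) (curve p D k) f) →
    ∀ u : HeightOneSpectrum (𝓞 k), u.asIdeal.under (𝓞 K) = v.asIdeal →
      TrivialOver k (u.adicCompletion k) (curve p D k) f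

/-- The real places of `K` at which `4 A³ + 27 B²` is not positive extend to real places of `N`. -/
def LocReal (N : Type) [Field N] [Algebra K N] (p : 𝓞 K × 𝓞 K) : Prop :=
  ∀ s : K →+* ℝ, s (4 * (p.1 : K) ^ 3 + 27 * (p.2 : K) ^ 2) ≤ 0 →
    ∃ s' : N →+* ℝ, ∀ x : K, s' (algebraMap K N x) = s x

/-- The local conditions for `E_D` at all places of `K`. -/
def Local (N : Type) [Field N] [Algebra K N] (p : 𝓞 K × 𝓞 K) (D : K) : Prop :=
  LocReal N p ∧ ∀ v : HeightOneSpectrum (𝓞 K), Loc N v p D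

/-- `x³ + A x + B` has no root in `K` for `(A, B) = p j`, `j ∈ J`, and the product of the discriminants
`-(4 A³ + 27 B²)` over any nonempty subset of `J` is not a square in `N`. -/
def Indep (N : Type) [Field N] [Algebra K N] {J : Type} (p : J → 𝓞 K × 𝓞 K) : Prop :=
  (∀ (j : J) (t : K), t ^ 3 + ((p j).1 : K) * t + ((p j).2 : K) ≠ 0) ∧
    ∀ I : Finset J, I.Nonempty → ¬ IsSquare (algebraMap K N
      (∏ j ∈ I, -(4 * ((p j).1 : K) ^ 3 + 27 * ((p j).2 : K) ^ 2)))

/-- The prime `v` of `K` splits completely in the Galois extension `N`: the decomposition groups of the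
primes above `v` are trivial. -/
def Split (N : Type) [Field N] [NumberField N] [Algebra K N] (v : HeightOneSpectrum (𝓞 K)) : Prop :=
  ∀ w : HeightOneSpectrum (𝓞 N), w.asIdeal.under (𝓞 K) = v.asIdeal →
    ∀ g : N ≃ₐ[K] N, (∀ x : N, w.valuation N (g x) = w.valuation N x) → g = 1

/-- `D ≠ 0`, and `D / D₀` is a square in the completions at the primes of `S`, totally positive and has
even valuation at the primes of `K` which do not split completely in `N`. -/
def Near (N : Type) [Field N] [NumberField N] [Algebra K N] (S : Finset (HeightOneSpectrum (𝓞 K)))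
    (D₀ D : K) : Prop :=
  D ≠ 0 ∧ (∀ v ∈ S, IsSquare (algebraMap K (v.adicCompletion K) (D / D₀))) ∧
    (∀ s : K →+* ℝ, 0 < s (D / D₀)) ∧
    ∀ v : HeightOneSpectrum (𝓞 K), ¬ Split N v → IsSquare (v.valuation K (D / D₀))

/-- There is a sequence of elements `D` of `K`, pairwise different modulo squares, which are near to
`D₀` and for which `TrivOver` holds for all the curves. -/
def Many (N : Type) [Field N] [NumberField N] [Algebra K N] {J : Type} (p : J → 𝓞 K × 𝓞 K)
    (S : Finset (HeightOneSpectrum (𝓞 K))) (D₀ : K) : Prop :=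
  ∃ f : ℕ → K, (∀ n, Near N S D₀ (f n) ∧ ∀ j, TrivOver N (p j) (f n)) ∧
    ∀ m n, IsSquare (f m * f n) → m = n

/-- Finite abelian groups of odd order. -/
private theorem odd_iff {G : Type} [AddCommGroup G] [Finite G] :
    Odd (Nat.card G) ↔ ∀ P : G, P + P = 0 → P = 0 := by
  constructor
  · intro h P hP
    have h1 : addOrderOf P ∣ 2 := addOrderOf_dvd_of_nsmul_eq_zero (by rw [two_nsmul, hP])
    rcases (Nat.dvd_prime Nat.prime_two).1 h1 with h2 | h2
    · exact AddMonoid.addOrderOf_eq_one_iff.1 h2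
    · exfalso
      have h3 := addOrderOf_dvd_natCard P
      rw [h2] at h3
      exact (Nat.not_even_iff_odd.2 h) (even_iff_two_dvd.2 h3)
  · intro h
    rw [← Nat.not_even_iff_odd, even_iff_two_dvd]
    intro h2
    obtain ⟨P, hP⟩ := exists_prime_addOrderOf_dvd_card' 2 h2
    have h3 : P + P = 0 := by
      rw [← two_nsmul, ← hP]
      exact addOrderOf_nsmul_eq_zero P
    rw [h P h3, addOrderOf_zero] at hP
    norm_num at hP

omit [NumberField K] in
private theorem triv_iff {p : 𝓞 K × 𝓞 K} {D : K} {M : Type} [Field M] [NumberField M]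
    [Algebra K M] : Triv p D M ↔
      H30ZO.Tv M (algebraMap K M (D ^ 2 * (p.1 : K))) (algebraMap K M (D ^ 3 * (p.2 : K))) := by
  constructor
  · rintro ⟨h1, h2, h3⟩
    exact ⟨h1, (@odd_iff _ _ h1).1 h2, h3⟩
  · rintro ⟨h1, h2, h3⟩
    exact ⟨h1, (@odd_iff _ _ h1).2 h2, h3⟩

private theorem over_iff {p : 𝓞 K × 𝓞 K} {D : K} {N : Type} [Field N] [NumberField N]
    [Algebra K N] : TrivOver N p D ↔ H88PL.TvN K N (p.1 : K) (p.2 : K) D :=
  ⟨fun h M _ _ _ _ _ => triv_iff.1 (h M), fun h M _ _ _ _ _ => triv_iff.2 (h M)⟩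

private theorem even_iff {p : 𝓞 K × 𝓞 K} {D : K} : EvenRank p D ↔
    H88PL.Ev (p.1 : K) (p.2 : K) D :=
  Iff.rfl

omit [NumberField K] in
private theorem under_iff {L : Type} [Field L] [NumberField L] [Algebra K L]
    {v : HeightOneSpectrum (𝓞 K)} {w : HeightOneSpectrum (𝓞 L)} :
    w.asIdeal.under (𝓞 K) = v.asIdeal ↔ H76PP.dn K w = v :=
  ⟨fun h => HeightOneSpectrum.ext h, fun h => by rw [← h]; rfl⟩

private theorem loc_iff {N : Type} [Field N] [Algebra K N] {v : HeightOneSpectrum (𝓞 K)}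
    {p : 𝓞 K × 𝓞 K} {D : K} :
    Loc N v p D ↔ H36ZO.LocC K N v (D ^ 2 * (p.1 : K)) (D ^ 3 * (p.2 : K)) := by
  unfold Loc H36ZO.LocC
  simp only [under_iff]
  exact Iff.rfl

omit [NumberField K] in
private theorem ind_sq {N : Type} [Field N] [Algebra K N] {J : Type} {p : J → 𝓞 K × 𝓞 K}
    (h : Indep N p) (j : J) :
    ¬ IsSquare (algebraMap K N (H26OD.dd3 ((p j).1 : K) ((p j).2 : K))) := by
  have h1 := h.2 {j} (Finset.singleton_nonempty j)
  rwa [Finset.prod_singleton] at h1

private theorem local_iff {N : Type} [Field N] [NumberField N] [Algebra K N] [IsGalois K N]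
    {J : Type} {p : J → 𝓞 K × 𝓞 K} (h : Indep N p) (j : J) {D : K} (hD : D ≠ 0) :
    Local N (p j) D ↔ H30ZO.RealAt K N ((p j).1 : K) ((p j).2 : K) ∧
      ∀ v, H36CY.DescAt K N v (D ^ 2 * ((p j).1 : K)) (D ^ 3 * ((p j).2 : K)) := by
  refine and_congr H38OD.realAt_iff.symm (forall_congr' fun v => ?_)
  rw [loc_iff]
  exact H38OD.locC_iff (H38OD.noroot_tw hD (H26OD.noroot_N (h.1 j) (ind_sq h j)))

section Bal

variable {N : Type} [Field N] [NumberField N] [Algebra K N] [Normal K N]

omit [NumberField K] [Normal K N] in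
private theorem cob_iff {W : WeierstrassCurve N} {f : Fun W} : IsCob W f ↔ f ∈ H88GN.Co N W := by
  refine exists_congr fun T => and_congr_right fun _ => forall_congr' fun σ => ?_
  rw [H88GN.act_map]

private theorem submod_iff {V : WeierstrassCurve K} {W : WeierstrassCurve N}
    (hV : V.map (algebraMap K N) = W) {U : AddSubgroup (Fun W)} :
    Submod K W U ↔ H88GN.SB (fun (s : AlgebraicClosure N ≃ₐ[K] AlgebraicClosure N) f =>
      H73IS.cj (inv_up hV) s f) (H88GN.Co N W) (H88GN.Se N W) U := by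
  refine and_congr ⟨fun h f hf => h f (cob_iff.2 hf), fun h f hf => h (cob_iff.1 hf)⟩
    (and_congr Iff.rfl (forall_congr' fun s => forall_congr' fun f => forall_congr' fun hf => ?_))
  exact ⟨fun h => h _ ((H88GN.conj_iff hV s f _).2 rfl), fun h f' h' => by
    rw [(H88GN.conj_iff hV s f f').1 h']
    exact h⟩

private theorem socle_eq {V : WeierstrassCurve K} {W : WeierstrassCurve N}
    (hV : V.map (algebraMap K N) = W) :
    Socle K W = H88GN.socC (fun (s : AlgebraicClosure N ≃ₐ[K] AlgebraicClosure N) f =>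
      H73IS.cj (inv_up hV) s f) (H88GN.Co N W) (H88GN.Se N W) := by
  unfold Socle H88GN.socC
  congr 1
  ext U
  refine and_congr (submod_iff hV) (forall_congr' fun U' => forall_congr' fun _ => ?_)
  rw [submod_iff hV]
  refine forall_congr' fun _ => or_congr ⟨fun h f hf => cob_iff.1 (h f hf),
    fun h f hf => cob_iff.2 (h hf)⟩ Iff.rfl

private theorem bal_iff {p : 𝓞 K × 𝓞 K} {D : K} : Balanced N p D ↔
    H88GN.BalC (fun (s : AlgebraicClosure N ≃ₐ[K] AlgebraicClosure N) f =>
        H73IS.cj (inv_up (H88GN.sw_map (N := N) (A := D ^ 2 * (p.1 : K))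
          (B := D ^ 3 * (p.2 : K)))) s f)
      (H88GN.Co N (H88GN.sw (algebraMap K N (D ^ 2 * (p.1 : K))) (algebraMap K N (D ^ 3 * (p.2 : K)))))
      (H88GN.Se N (H88GN.sw (algebraMap K N (D ^ 2 * (p.1 : K)))
        (algebraMap K N (D ^ 3 * (p.2 : K))))) := by
  have hV := H88GN.sw_map (N := N) (A := D ^ 2 * (p.1 : K)) (B := D ^ 3 * (p.2 : K))
  have e := socle_eq hV
  unfold Balanced H88GN.BalC
  refine exists_congr fun β => ?_
  rw [← e]
  refine and_congr Iff.rfl (and_congr ?_ (and_congr ?_ ?_))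
  · refine forall_congr' fun s => forall_congr' fun f => forall_congr' fun hf =>
      forall_congr' fun g => forall_congr' fun hg => ?_
    exact ⟨fun h => h _ _ ((H88GN.conj_iff hV s f _).2 rfl) ((H88GN.conj_iff hV s g _).2 rfl),
      fun h f' g' h1 h2 => by
        rw [(H88GN.conj_iff hV s f f').1 h1, (H88GN.conj_iff hV s g g').1 h2]
        exact h⟩
  · exact forall_congr' fun f => imp_congr cob_iff Iff.rfl
  · exact forall_congr' fun f => forall_congr' fun hf => imp_congr Iff.rfl cob_iff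

end Bal

private theorem split_iff {N : Type} [Field N] [NumberField N] [Algebra K N]
    {v : HeightOneSpectrum (𝓞 K)} : v ∈ H26OD.Zs K N ↔ Split N v := by
  refine forall_congr' fun w => imp_congr under_iff.symm (forall_congr' fun g =>
    imp_congr ⟨fun h x => ?_, fun h => H88OD.stb_smul h⟩ Iff.rfl)
  have h1 := H24TD.val_smul (H88OD.gq g) w x
  rwa [h, H88OD.gq_apply] at h1

private theorem even_sq {v : HeightOneSpectrum (𝓞 K)} {x : K} (hx : x ≠ 0) :
    Even (H38RT.ord (v.valuation K) x) ↔ IsSquare (v.valuation K x) := by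
  have hv : v.valuation K x ≠ 0 := (Valuation.ne_zero_iff _).2 hx
  unfold H38RT.ord
  rw [even_neg]
  constructor
  · rintro ⟨m, hm⟩
    refine ⟨WithZero.exp m, ?_⟩
    rw [← WithZero.exp_add, ← hm, WithZero.exp_log hv]
  · rintro ⟨r, hr⟩
    have hr0 : r ≠ 0 := by
      rintro rfl
      rw [mul_zero] at hr
      exact hv hr
    exact ⟨WithZero.log r, by rw [hr, WithZero.log_mul hr0 hr0]⟩

private theorem near_of {N : Type} [Field N] [NumberField N] [Algebra K N]
    {S : Finset (HeightOneSpectrum (𝓞 K))} {D₀ D : K} (h : H88OD.RelZ K S (H26OD.Zs K N) D₀ D) :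
    Near N S D₀ D := by
  refine ⟨h.rel.n1, h.rel.sq, h.rel.pos, fun v hv => ?_⟩
  rw [map_div₀, h.out v fun h1 => hv (split_iff.1 h1),
    div_self ((Valuation.ne_zero_iff _).2 h.rel.n0)]
  exact ⟨1, (mul_one 1).symm⟩

private theorem many_B {N : Type} [Field N] [NumberField N] [Algebra K N] [IsGalois K N]
    {J : Type} [Fintype J] [Nonempty J] {p : J → 𝓞 K × 𝓞 K} (hp : Indep N p) {D₀ : K}
    (h0 : D₀ ≠ 0) (hl : ∀ j, Local N (p j) D₀ ∧ Balanced N (p j) D₀)
    (S : Finset (HeightOneSpectrum (𝓞 K))) : Many N p S D₀ := by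
  obtain ⟨f, h1, h2⟩ := H88OD.exists_seq (P := fun D => H88OD.RelZ K S (H26OD.Zs K N) D₀ D ∧
    ∀ j, H88PL.TvN K N ((p j).1 : K) ((p j).2 : K) D) (fun D h => h.1.rel.n1) (by
      intro X
      obtain ⟨D, g1, g2, g3⟩ := H26GX.main_N (N := N) hp.1 hp.2 h0
        (fun j => ((local_iff hp j h0).1 (hl j).1).1) (fun j => ((local_iff hp j h0).1 (hl j).1).2)
        (fun j q W hW => (H88GN.balC_iff q.S h0 hW).1 (bal_iff.1 (hl j).2)) S X
      exact ⟨D, ⟨g1, g2⟩, g3⟩)
  exact ⟨f, fun n => ⟨near_of (h1 n).1, fun j => over_iff.2 ((h1 n).2 j)⟩, h2⟩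

private theorem many_E {N : Type} [Field N] [NumberField N] [Algebra K N] [IsGalois K N]
    (hN : NormalSylow K N) {J : Type} [Fintype J] [Nonempty J] {p : J → 𝓞 K × 𝓞 K}
    (hp : Indep N p) {D₀ : K} (h0 : D₀ ≠ 0) (he : ∀ j, EvenRank (p j) D₀)
    (hl : ∀ j, Local N (p j) D₀) (S : Finset (HeightOneSpectrum (𝓞 K))) : Many N p S D₀ := by
  obtain ⟨P, hP⟩ := hN
  obtain ⟨F, hF, hodd, r, hr⟩ := H88OD.exists_F P hP
  obtain ⟨f, h1, h2⟩ := H88OD.exists_seq (P := fun D => H88OD.RelZ K S (H26OD.Zs K N) D₀ D ∧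
    ∀ j, H88PL.TvN K N ((p j).1 : K) ((p j).2 : K) D) (fun D h => h.1.rel.n1) (by
      intro X
      obtain ⟨D, g1, g2, g3⟩ := H88GN.main_NJZ (F := F) (N := N) hodd hr hp.1 hp.2 h0
        (fun j => even_iff.1 (he j)) (fun j => ((local_iff hp j h0).1 (hl j)).1)
        (fun j => ((local_iff hp j h0).1 (hl j)).2) S X
      exact ⟨D, ⟨g1, g2⟩, g3⟩)
  exact ⟨f, fun n => ⟨near_of (h1 n).1, fun j => over_iff.2 ((h1 n).2 j)⟩, h2⟩

private theorem nec {N : Type} [Field N] [NumberField N] [Algebra K N] [IsGalois K N]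
    {J : Type} [Fintype J] {p : J → 𝓞 K × 𝓞 K} (hp : Indep N p) {D₀ : K}
    (h0 : D₀ ≠ 0) : ∃ S₀ : Finset (HeightOneSpectrum (𝓞 K)), ∀ D : K, Near N S₀ D₀ D →
      (∀ j, TrivOver N (p j) D) → ∀ j, Local N (p j) D₀ ∧ Balanced N (p j) D₀ := by
  obtain ⟨S₀, hS₀⟩ := H26GX.nec_N (N := N) hp.1 (ind_sq hp) h0
  refine ⟨S₀, fun D h1 h2 j => ?_⟩
  obtain ⟨g1, g2, g3⟩ := hS₀ D h1.1 h1.2.1 h1.2.2.1
    (fun v hv => (even_sq (div_ne_zero h1.1 h0)).2 (h1.2.2.2 v fun h => hv (split_iff.2 h)))
    (fun j => over_iff.1 (h2 j)) j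
  refine ⟨(local_iff hp j h0).2 ⟨g1, g2⟩, bal_iff.2 ?_⟩
  obtain ⟨q⟩ := H26GX.exists_pk (F := N) (p j).1 (p j).2 (hp.1 j) (ind_sq hp j)
  obtain ⟨W, hW⟩ := H88GX.exists_VG q.S h0
  exact (H88GN.balC_iff q.S h0 hW).2 (g3 q W hW)

omit [NumberField K] in
private theorem ind_unit {N : Type} [Field N] [Algebra K N] {p : 𝓞 K × 𝓞 K}
    (h : ∀ t : K, t ^ 3 + (p.1 : K) * t + (p.2 : K) ≠ 0)
    (h' : ¬ IsSquare (algebraMap K N (-(4 * (p.1 : K) ^ 3 + 27 * (p.2 : K) ^ 2)))) :
    Indep N (fun _ : Unit => p) := by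
  refine ⟨fun _ => h, fun I hI => ?_⟩
  have e : I = {()} := by
    obtain ⟨x, hx⟩ := hI
    ext y
    exact ⟨fun _ => Finset.mem_singleton.2 rfl, fun _ => hx⟩
  rwa [e, Finset.prod_singleton]

private theorem bal_even {N : Type} [Field N] [NumberField N] [Algebra K N] [IsGalois K N]
    (hN : NormalSylow K N) {J : Type} {p : J → 𝓞 K × 𝓞 K} (hp : Indep N p) {D₀ : K} (h0 : D₀ ≠ 0)
    (j : J) (hl : Local N (p j) D₀) : Balanced N (p j) D₀ ↔ EvenRank (p j) D₀ := by
  have hq : Indep N (fun _ : Unit => p j) := ind_unit (hp.1 j) (ind_sq hp j)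
  constructor
  · intro hb
    obtain ⟨S₀, hS₀⟩ := H88PL.exists_S0 (N := N) hq.1 (ind_sq hq) h0 ∅
    obtain ⟨f, h1, -⟩ := many_B hq h0 (fun _ => ⟨hl, hb⟩) S₀
    obtain ⟨-, h3⟩ := hS₀ (f 0) (h1 0).1.1 (h1 0).1.2.1 (fun s _ => (h1 0).1.2.2.1 s)
      fun i => over_iff.1 ((h1 0).2 i)
    rcases h3 with h3 | ⟨⟨s, hs⟩, -⟩
    · exact even_iff.2 (h3 ())
    · exact absurd hs (Set.notMem_empty s)
  · intro he
    obtain ⟨S₀, hS₀⟩ := nec hq h0
    obtain ⟨f, h1, -⟩ := many_E hN hq h0 (fun _ => he) (fun _ => hl) S₀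
    exact (hS₀ (f 0) (h1 0).1 (h1 0).2 ()).2

private theorem no_two {N : Type} [Field N] [NumberField N] [Algebra K N]
    (hodd : Odd (Module.finrank K N)) (k k' : Type) [Field k] [NumberField k] [Field k']
    [NumberField k'] [Algebra K k] [Algebra K k'] [Algebra k k'] [IsScalarTower K k k']
    [Algebra k' N] [IsScalarTower K k' N] : Module.finrank k k' ≠ 2 := by
  intro two
  have h1 := Module.finrank_mul_finrank K k k'
  have h2 := Module.finrank_mul_finrank K k' N
  rw [← h2, ← h1, two] at hodd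
  exact (Nat.not_even_iff_odd.2 hodd) (by
    rw [Nat.even_mul, Nat.even_mul]
    exact Or.inl (Or.inr even_two))

private theorem odd_case (N : Type) [Field N] [NumberField N] [Algebra K N] (hgal : IsGalois K N)
    (hodd : Odd (Module.finrank K N)) : NormalSylow K N ∧ ∀ (p : 𝓞 K × 𝓞 K) (D : K), Local N p D := by
  refine ⟨⟨(default : Sylow 2 (N ≃ₐ[K] N)), ?_⟩, fun p D => ⟨?_, fun v => ?_⟩⟩
  · have h : Odd (Nat.card (N ≃ₐ[K] N)) := by
      rw [IsGalois.card_aut_eq_finrank]
      exact hodd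
    have _ : Fact (Nat.Prime 2) := ⟨Nat.prime_two⟩
    obtain ⟨n, hn⟩ := (default : Sylow 2 (N ≃ₐ[K] N)).isPGroup'.exists_card_eq
    have h1 : Nat.card ((default : Sylow 2 (N ≃ₐ[K] N)) : Subgroup (N ≃ₐ[K] N)) ∣
        Nat.card (N ≃ₐ[K] N) := Subgroup.card_subgroup_dvd_card _
    have h2 : n = 0 := by
      by_contra hne
      have h3 : 2 ∣ Nat.card ((default : Sylow 2 (N ≃ₐ[K] N)) : Subgroup (N ≃ₐ[K] N)) := by
        rw [hn]
        exact dvd_pow_self 2 hne
      exact (Nat.not_even_iff_odd.2 h) (even_iff_two_dvd.2 (h3.trans h1))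
    rw [h2, pow_zero] at hn
    rw [Subgroup.card_eq_one.1 hn]
    infer_instance
  · refine H38OD.realAt_iff.1 fun k k' _ _ _ _ _ _ _ _ _ _ _ _ _ two s => ?_
    exact absurd two (no_two hodd k k')
  · intro k k' _ _ _ _ _ _ _ _ _ _ two
    exact absurd two (no_two hodd k k')

/-- Let `K` be a number field.
(1) Let `N / K` be a finite Galois extension and let `E_j : y² = x³ + A_j x + B_j`, `j ∈ J`, be finitely
many elliptic curves over `K` which satisfy `Indep`.  Let `D₀ ∈ K` be nonzero.  For a finite set `S₀` of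
primes the following are equivalent: the twists `E_{j, D₀}` satisfy the local conditions and are
balanced over `N`; there is `D` near to `D₀` (for `S₀`) with `TrivOver` for all `j`; for every finite
set `S` of primes there are infinitely many such `D` modulo squares.
(2) If the Galois group of `N / K` has a normal Sylow 2-subgroup then a twist `E_{j, D₀}` which satisfies
the local conditions is balanced over `N` if and only if its two-Selmer rank over `K` is even.
(3) If the degree of the Galois extension `N / K` is odd then the Galois group has a normal Sylow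
2-subgroup and the local conditions always hold.
(4) For every `ε > 0` there is a finite set `T` of totally positive `D ≡ 1 mod m` such that for all but
at most `ε * #(Box K X)` curves `E` in `Box K X` there is `D₀ ∈ T` such that for all finite Galois
extensions `N / K` and all finite sets `S` of primes there are infinitely many `D` modulo squares near to
`D₀` with `TrivOver`, if the degree of `N / K` is odd, or if its Galois group has a normal Sylow
2-subgroup, `E` satisfies `Indep` and `E_{D₀}` satisfies the local conditions. -/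
theorem result (K : Type) [Field K] [NumberField K] :
    (∀ (N : Type) [Field N] [NumberField N] [Algebra K N], IsGalois K N →
      ∀ (J : Type) [Fintype J] [Nonempty J] (p : J → 𝓞 K × 𝓞 K), Indep N p →
      ∀ D₀ : K, D₀ ≠ 0 →
        (∃ S₀ : Finset (HeightOneSpectrum (𝓞 K)),
          List.TFAE [∀ j, Local N (p j) D₀ ∧ Balanced N (p j) D₀,
            ∃ D : K, Near N S₀ D₀ D ∧ ∀ j, TrivOver N (p j) D,
            ∀ S : Finset (HeightOneSpectrum (𝓞 K)), Many N p S D₀]) ∧
        (NormalSylow K N → ∀ j, Local N (p j) D₀ → (Balanced N (p j) D₀ ↔ EvenRank (p j) D₀))) ∧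
    (∀ (N : Type) [Field N] [NumberField N] [Algebra K N], IsGalois K N →
      Odd (Module.finrank K N) → NormalSylow K N ∧ ∀ (p : 𝓞 K × 𝓞 K) (D : K), Local N p D) ∧
    ∀ m : Ideal (𝓞 K), m ≠ ⊥ → ∀ ε : ℝ, 0 < ε → ∃ (T : Finset (𝓞 K)) (X₀ : ℝ),
      (∀ D ∈ T, D ≠ 0 ∧ D - 1 ∈ m ∧ ∀ s : K →+* ℝ, 0 < s (D : K)) ∧
      ∀ X : ℝ, X₀ ≤ X → (Box K X).Finite ∧
        ({p : 𝓞 K × 𝓞 K | p ∈ Box K X ∧
          ¬ ∃ D₀ ∈ T, ∀ (N : Type) [Field N] [NumberField N] [Algebra K N], IsGalois K N →
            (Odd (Module.finrank K N) ∨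
              (NormalSylow K N ∧ Indep N (fun _ : Unit => p) ∧ Local N p (D₀ : K))) →
            ∀ S : Finset (HeightOneSpectrum (𝓞 K)), Many N (fun _ : Unit => p) S (D₀ : K)}.ncard : ℝ) ≤
          ε * ((Box K X).ncard : ℝ) := by
  refine ⟨fun N _ _ _ hgal J _ _ p hp D₀ h0 => ⟨?_, fun hN j hl => bal_even hN hp h0 j hl⟩,
    odd_case, ?_⟩
  · obtain ⟨S₀, hS₀⟩ := nec hp h0
    refine ⟨S₀, ?_⟩
    tfae_have 1 → 3 := fun h S => many_B hp h0 h S
    tfae_have 3 → 2 := by
      intro h
      obtain ⟨f, h1, -⟩ := h S₀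
      exact ⟨f 0, h1 0⟩
    tfae_have 2 → 1 := by
      rintro ⟨D, h1, h2⟩
      exact hS₀ D h1 h2
    tfae_finish
  · intro m hm ε hε
    obtain ⟨T, X₀, h1, h2⟩ := H30OD.de_A K hm hε
    refine ⟨T, X₀, h1, fun X hX => ?_⟩
    have hbox : Box K X = H76PP.Bx K X := by
      ext p
      exact ⟨fun h => ⟨fun s => (h s).1, fun s => (h s).2⟩, fun h s => ⟨h.1 s, h.2 s⟩⟩
    rw [hbox]
    refine ⟨H76PP.Bx_fin K X, le_trans ?_ (h2 X hX)⟩
    refine Nat.cast_le.2 (Set.ncard_le_ncard ?_ ((H76PP.Bx_fin K X).subset fun p hp => hp.1))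
    rintro p ⟨hp, hno⟩
    refine ⟨hp, fun hg => hno ?_⟩
    obtain ⟨D, hD, hT⟩ := hg.tw
    have hD0 : (D : K) ≠ 0 := by
      intro h
      apply (h1 D hD).1
      exact_mod_cast h
    refine ⟨D, hD, fun N _ _ _ hgal hc S => ?_⟩
    have hk : H88OD.selCard K ((D : K) ^ 2 * (p.1 : K)) ((D : K) ^ 3 * (p.2 : K)) = 4 ^ 0 := by
      rw [pow_zero]
      exact H88OD.selCard_of_Tv (fun v => v.valuation_le_one p.1) (fun v => v.valuation_le_one p.2)
        hg.irr hg.ne hg.nsq hD0 hT
    rcases hc with hodd | ⟨hN, hi, hl⟩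
    · obtain ⟨hN, hl⟩ := odd_case N hgal hodd
      exact many_E hN (ind_unit hg.irr fun h => hg.nsq (H30OD.sq_down hodd h)) hD0
        (fun _ => ⟨0, hk⟩) (fun _ => hl p D) S
    · exact many_E hN hi hD0 (fun _ => ⟨0, hk⟩) (fun _ => hl) S

end Pool.Agent.Results.MP_78d38b_nt.GaloisTwists
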