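import Pool.Agent.H88.GN.Ra
import Pool.Agent.H88.GT.J3
import Pool.Agent.H30.QC.F1
import Pool.Agent.H30.OD.De
import Pool.Agent.H88.PL.Pf

/-!
Let `N / K` be a finite Galois extension of number fields and let `E_j : y² = x³ + A_j x + B_j`, `j ∈ J`,
be finitely many elliptic curves over `K` such that `x³ + A_j x + B_j` has no root in `K` and the
discriminants are independent modulo squares in `N`.  The quadratic twists by many elements `D` near to
`D₀` (at least `X ^ n / (log X) ^ (1 - c)` up to `X`), or by one such `D`, have finite groups of points of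
odd order and Tate-Shafarevich groups with trivial two-primary part over all number fields between `K`
and `N` if and only if the twists by `D₀` satisfy local conditions and their two-Selmer groups over `N`
are balanced modules for the Galois group of `N / K`.
-/

set_option autoImplicit false
open scoped Classical

namespace Pool.Agent.Results.MP_78d38b_nt.GaloisTwists

open NumberField WeierstrassCurve IsDedekindDomain Pool.Agent.H10

/-- The pairs `(A, B)` of algebraic integers of `K` of height at most `X`: the absolute values of all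
complex conjugates of `A` are at most `X²` and those of `B` are at most `X³`. -/
def Box (K : Type) [Field K] [NumberField K] (X : ℝ) : Set (𝓞 K × 𝓞 K) :=
  {p | ∀ s : K →+* ℂ, ‖s (p.1 : K)‖ ≤ X ^ 2 ∧ ‖s (p.2 : K)‖ ≤ X ^ 3}

/-- The Galois group of `N / K` has a normal Sylow 2-subgroup. -/
def NormalSylow (K N : Type) [Field K] [Field N] [Algebra K N] : Prop :=
  ∃ P : Sylow 2 (N ≃ₐ[K] N), (P : Subgroup (N ≃ₐ[K] N)).Normal

section Cocycles

variable {k : Type} [Field k] [NumberField k]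

/-- Functions on the Galois group of `k` with values in `W(k̄)`. -/
abbrev Fun (W : WeierstrassCurve k) : Type :=
  (AlgebraicClosure k ≃ₐ[k] AlgebraicClosure k) →
    (W.baseChange (AlgebraicClosure k)).toAffine.Point

/-- The locally constant one-cocycles with values in the points killed by two which become
coboundaries in `W` over all completions of `k`. -/
def IsSel (W : WeierstrassCurve k) (f : Fun W) : Prop :=
  IsCocycle k W f ∧ IsLocTriv k W f ∧ ∀ σ, f σ + f σ = 0

/-- The coboundaries of the points killed by two. -/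
def IsCob (W : WeierstrassCurve k) (f : Fun W) : Prop :=
  ∃ T : (W.baseChange (AlgebraicClosure k)).toAffine.Point,
    T + T = 0 ∧ ∀ σ : AlgebraicClosure k ≃ₐ[k] AlgebraicClosure k,
      f σ = (WeierstrassCurve.Affine.Point.map σ.toAlgHom :
        (W.baseChange (AlgebraicClosure k)).toAffine.Point →+
          (W.baseChange (AlgebraicClosure k)).toAffine.Point) T - T

/-- The difference is the coboundary of a point killed by two. -/
def Cohom (W : WeierstrassCurve k) (f g : {f : Fun W // IsSel W f}) : Prop :=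
  IsCob W (f.1 - g.1)

variable (K : Type) [Field K] [Algebra K k]

/-- `Q = s P` for the automorphism `s` of the algebraic closure of `k` over `K`. -/
def Moved (W : WeierstrassCurve k) (s : AlgebraicClosure k ≃ₐ[K] AlgebraicClosure k)
    (P Q : (W.baseChange (AlgebraicClosure k)).toAffine.Point) : Prop :=
  (P = 0 ∧ Q = 0) ∨ ∃ (x y : AlgebraicClosure k)
    (h : (W.baseChange (AlgebraicClosure k)).toAffine.Nonsingular x y)
    (h' : (W.baseChange (AlgebraicClosure k)).toAffine.Nonsingular (s x) (s y)),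
    P = .some x y h ∧ Q = .some (s x) (s y) h'

/-- `f'(τ) = s (f (s⁻¹ τ s))` for all `τ`. -/
def IsConj (W : WeierstrassCurve k) (s : AlgebraicClosure k ≃ₐ[K] AlgebraicClosure k)
    (f f' : Fun W) : Prop :=
  ∀ τ τ' : AlgebraicClosure k ≃ₐ[k] AlgebraicClosure k, (∀ x, s (τ' x) = τ (s x)) →
    Moved K W s (f τ') (f' τ)

/-- `U` is the preimage of a subgroup of the two-Selmer group of `W` which is stable under the
automorphisms of `k / K`. -/
def Submod (W : WeierstrassCurve k) (U : AddSubgroup (Fun W)) : Prop :=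
  (∀ f, IsCob W f → f ∈ U) ∧ (∀ f ∈ U, IsSel W f) ∧
    ∀ s : AlgebraicClosure k ≃ₐ[K] AlgebraicClosure k, ∀ f ∈ U, ∀ f', IsConj K W s f f' → f' ∈ U

/-- The preimage of the socle of the two-Selmer group of `W`, the sum of the simple submodules. -/
noncomputable def Socle (W : WeierstrassCurve k) : AddSubgroup (Fun W) :=
  sSup {U | Submod K W U ∧
    ∀ U' : AddSubgroup (Fun W), U' ≤ U → Submod K W U' → (∀ f ∈ U', IsCob W f) ∨ U' = U}

end Cocycles

variable {K : Type} [Field K] [NumberField K]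

/-- The quadratic twist `E_D : y² = x³ + D² A x + D³ B` over the extension `M` of `K`, where
`p = (A, B)`. -/
def curve (p : 𝓞 K × 𝓞 K) (D : K) (M : Type) [Field M] [Algebra K M] : WeierstrassCurve M :=
  ⟨0, 0, 0, algebraMap K M (D ^ 2 * p.1), algebraMap K M (D ^ 3 * p.2)⟩

/-- The group `E_D(M)` is finite of odd order and the Tate-Shafarevich group of `E_D` over `M` has no
nontrivial element of two-power order. -/
def Triv (p : 𝓞 K × 𝓞 K) (D : K) (M : Type) [Field M] [NumberField M] [Algebra K M] : Prop :=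
  Finite (curve p D M).toAffine.Point ∧ Odd (Nat.card (curve p D M).toAffine.Point) ∧
    Sha2Trivial M (curve p D M)

/-- `Triv` holds over all number fields between `K` and `N`. -/
def TrivOver (N : Type) [Field N] [Algebra K N] (p : 𝓞 K × 𝓞 K) (D : K) : Prop :=
  ∀ (M : Type) [Field M] [NumberField M] [Algebra K M] [Algebra M N] [IsScalarTower K M N],
    Triv p D M

/-- The socle of the two-Selmer group of `E_D` over `N` as a module over the Galois group of `N / K`
has an invariant bilinear form `β` with values in `ZMod 2` such that the form `β(f, g) + β(g, f)` is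
nondegenerate. -/
def Balanced (N : Type) [Field N] [NumberField N] [Algebra K N] (p : 𝓞 K × 𝓞 K) (D : K) : Prop :=
  ∃ β : Fun (curve p D N) → Fun (curve p D N) → ZMod 2,
    (∀ f ∈ Socle K (curve p D N), ∀ f' ∈ Socle K (curve p D N), ∀ g ∈ Socle K (curve p D N),
      β (f + f') g = β f g + β f' g ∧ β g (f + f') = β g f + β g f') ∧
    (∀ s : AlgebraicClosure N ≃ₐ[K] AlgebraicClosure N, ∀ f ∈ Socle K (curve p D N),
      ∀ g ∈ Socle K (curve p D N), ∀ f' g' : Fun (curve p D N),
      IsConj K (curve p D N) s f f' → IsConj K (curve p D N) s g g' → β f' g' = β f g) ∧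
    (∀ f, IsCob (curve p D N) f → ∀ g ∈ Socle K (curve p D N), β f g = 0 ∧ β g f = 0) ∧
    ∀ f ∈ Socle K (curve p D N), (∀ g ∈ Socle K (curve p D N), β f g + β g f = 0) →
      IsCob (curve p D N) f

/-- The two-Selmer rank of `E_D` over `K` is even: the two-Selmer group of `E_D` over `K` has order
`4 ^ k` for some `k`. -/
def EvenRank (p : 𝓞 K × 𝓞 K) (D : K) : Prop :=
  ∃ k : ℕ, Nat.card (Quot (Cohom (curve p D K))) = 4 ^ k

/-- The cocycle `f` of the Galois group of `k` in `W` becomes a coboundary over the extension `L`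
of `k`. -/
def TrivialOver (k L : Type) [Field k] [NumberField k] [Field L] [Algebra k L]
    (W : WeierstrassCurve k) (f : (AlgebraicClosure k ≃ₐ[k] AlgebraicClosure k) →
      (W.baseChange (AlgebraicClosure k)).toAffine.Point) : Prop :=
  ∀ ι : AlgebraicClosure k →ₐ[k] AlgebraicClosure L,
    ∃ P : (W.baseChange (AlgebraicClosure L)).toAffine.Point,
    ∀ τ : AlgebraicClosure L ≃ₐ[L] AlgebraicClosure L,
    ∀ σ : AlgebraicClosure k ≃ₐ[k] AlgebraicClosure k,
      (τ.toAlgHom.restrictScalars k).comp ι = ι.comp σ.toAlgHom →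
      (WeierstrassCurve.Affine.Point.map ι :
        (W.baseChange (AlgebraicClosure k)).toAffine.Point →+
          (W.baseChange (AlgebraicClosure L)).toAffine.Point) (f σ) =
        (WeierstrassCurve.Affine.Point.map (τ.toAlgHom.restrictScalars k) :
          (W.baseChange (AlgebraicClosure L)).toAffine.Point →+
            (W.baseChange (AlgebraicClosure L)).toAffine.Point) P - P

/-- The completion of `k'` at `w` as an extension of the subfield `k` of `k'`. -/
noncomputable abbrev compl (k k' : Type) [Field k] [Field k'] [NumberField k'] [Algebra k k']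
    (w : HeightOneSpectrum (𝓞 k')) : Algebra k (w.adicCompletion k') :=
  ((algebraMap k' (w.adicCompletion k')).comp (algebraMap k k')).toAlgebra

/-- The local condition for `E_D` at the prime `v` of `K`: for all number fields `k ≤ k'` between `K`
and `N` with `[k' : k] = 2`, every class of `H¹(k, E_D)` killed by two which is trivial over the
completions of `k'` at all the places above `v` is trivial over the completions of `k` at all the places
above `v`. -/
def Loc (N : Type) [Field N] [Algebra K N] (v : HeightOneSpectrum (𝓞 K)) (p : 𝓞 K × 𝓞 K) (D : K) :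
    Prop :=
  ∀ (k k' : Type) [Field k] [NumberField k] [Field k'] [NumberField k'] [Algebra K k] [Algebra K k']
    [Algebra k k'] [IsScalarTower K k k'] [Algebra k' N] [IsScalarTower K k' N],
    Module.finrank k k' = 2 → ∀ f : (AlgebraicClosure k ≃ₐ[k] AlgebraicClosure k) →
      ((curve p D k).baseChange (AlgebraicClosure k)).toAffine.Point,
    IsCocycle k (curve p D k) f → IsCobound k (curve p D k) (fun σ => 2 • f σ) →
    (∀ w : HeightOneSpectrum (𝓞 k'), w.asIdeal.under (𝓞 K) = v.asIdeal →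
      @TrivialOver k (w.adicCompletion k') _ _ _ (compl k k' w) (curve p D k) f) →
    ∀ u : HeightOneSpectrum (𝓞 k), u.asIdeal.under (𝓞 K) = v.asIdeal →
      TrivialOver k (u.adicCompletion k) (curve p D k) f

/-- The real places of `K` at which `4 A³ + 27 B²` is not positive extend to real places of `N`. -/
def LocReal (N : Type) [Field N] [Algebra K N] (p : 𝓞 K × 𝓞 K) : Prop :=
  ∀ s : K →+* ℝ, s (4 * (p.1 : K) ^ 3 + 27 * (p.2 : K) ^ 2) ≤ 0 →
    ∃ s' : N →+* ℝ, ∀ x : K, s' (algebraMap K N x) = s x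

/-- The local conditions for `E_D` at all places of `K`. -/
def Local (N : Type) [Field N] [Algebra K N] (p : 𝓞 K × 𝓞 K) (D : K) : Prop :=
  LocReal N p ∧ ∀ v : HeightOneSpectrum (𝓞 K), Loc N v p D

/-- `x³ + A x + B` has no root in `K` for `(A, B) = p j`, `j ∈ J`, and the product of the discriminants
`-(4 A³ + 27 B²)` over any nonempty subset of `J` is not a square in `N`. -/
def Indep (N : Type) [Field N] [Algebra K N] {J : Type} (p : J → 𝓞 K × 𝓞 K) : Prop :=
  (∀ (j : J) (t : K), t ^ 3 + ((p j).1 : K) * t + ((p j).2 : K) ≠ 0) ∧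
    ∀ I : Finset J, I.Nonempty → ¬ IsSquare (algebraMap K N
      (∏ j ∈ I, -(4 * ((p j).1 : K) ^ 3 + 27 * ((p j).2 : K) ^ 2)))

/-- `D ≠ 0`, and `D / D₀` is a square in the completions at the primes of `S` and positive at the real
places outside `R`. -/
def Near (S : Finset (HeightOneSpectrum (𝓞 K))) (R : Set (K →+* ℝ)) (D₀ D : K) : Prop :=
  D ≠ 0 ∧ (∀ v ∈ S, IsSquare (algebraMap K (v.adicCompletion K) (D / D₀))) ∧
    ∀ s : K →+* ℝ, s ∉ R → 0 < s (D / D₀)

/-- All the twists by `D₀` are balanced, or `R` is not empty and none is. -/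
def Parity (N : Type) [Field N] [NumberField N] [Algebra K N] (R : Set (K →+* ℝ)) {J : Type}
    (p : J → 𝓞 K × 𝓞 K) (D₀ : K) : Prop :=
  (∀ j, Balanced N (p j) D₀) ∨ (R.Nonempty ∧ ∀ j, ¬ Balanced N (p j) D₀)

/-- The elements `D` of `𝓞 K` which are near to `D₀`, for which `TrivOver` holds for all the curves, and
for which the absolute values of all complex conjugates of `D` are at most `X`. -/
def Good (N : Type) [Field N] [NumberField N] [Algebra K N] {J : Type} (p : J → 𝓞 K × 𝓞 K)
    (S : Finset (HeightOneSpectrum (𝓞 K))) (R : Set (K →+* ℝ)) (D₀ : K) (X : ℝ) : Set (𝓞 K) :=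
  {D | Near S R D₀ (D : K) ∧ (∀ j, TrivOver N (p j) (D : K)) ∧ ∀ s : K →+* ℂ, ‖s (D : K)‖ ≤ X}

/-- For some `c > 0` and all large `X` there are at least `X ^ n / (log X) ^ (1 - c)` elements `D` of
`Good`, pairwise different modulo squares, where `n` is the degree of `K`. -/
def Many (N : Type) [Field N] [NumberField N] [Algebra K N] {J : Type} (p : J → 𝓞 K × 𝓞 K)
    (S : Finset (HeightOneSpectrum (𝓞 K))) (R : Set (K →+* ℝ)) (D₀ : K) : Prop :=
  ∃ c : ℝ, 0 < c ∧ ∃ X₀ : ℝ, ∀ X : ℝ, X₀ ≤ X → ∃ F : Finset (𝓞 K),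
    (∀ D ∈ F, D ∈ Good N p S R D₀ X) ∧
    (∀ D ∈ F, ∀ D' ∈ F, IsSquare ((D : K) * (D' : K)) → D = D') ∧
    X ^ Module.finrank ℚ K / Real.log X ^ (1 - c) ≤ (F.card : ℝ)

/-- Finite abelian groups of odd order. -/
private theorem odd_iff {G : Type} [AddCommGroup G] [Finite G] :
    Odd (Nat.card G) ↔ ∀ P : G, P + P = 0 → P = 0 := by
  constructor
  · intro h P hP
    have h1 : addOrderOf P ∣ 2 := addOrderOf_dvd_of_nsmul_eq_zero (by rw [two_nsmul, hP])
    rcases (Nat.dvd_prime Nat.prime_two).1 h1 with h2 | h2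
    · exact AddMonoid.addOrderOf_eq_one_iff.1 h2
    · exfalso
      have h3 := addOrderOf_dvd_natCard P
      rw [h2] at h3
      exact (Nat.not_even_iff_odd.2 h) (even_iff_two_dvd.2 h3)
  · intro h
    rw [← Nat.not_even_iff_odd, even_iff_two_dvd]
    intro h2
    obtain ⟨P, hP⟩ := exists_prime_addOrderOf_dvd_card' 2 h2
    have h3 : P + P = 0 := by
      rw [← two_nsmul, ← hP]
      exact addOrderOf_nsmul_eq_zero P
    rw [h P h3, addOrderOf_zero] at hP
    norm_num at hP

omit [NumberField K] in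
private theorem triv_iff {p : 𝓞 K × 𝓞 K} {D : K} {M : Type} [Field M] [NumberField M]
    [Algebra K M] : Triv p D M ↔
      H30ZO.Tv M (algebraMap K M (D ^ 2 * (p.1 : K))) (algebraMap K M (D ^ 3 * (p.2 : K))) := by
  constructor
  · rintro ⟨h1, h2, h3⟩
    exact ⟨h1, (@odd_iff _ _ h1).1 h2, h3⟩
  · rintro ⟨h1, h2, h3⟩
    exact ⟨h1, (@odd_iff _ _ h1).2 h2, h3⟩

private theorem over_iff {p : 𝓞 K × 𝓞 K} {D : K} {N : Type} [Field N] [NumberField N]
    [Algebra K N] : TrivOver N p D ↔ H88PL.TvN K N (p.1 : K) (p.2 : K) D :=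
  ⟨fun h M _ _ _ _ _ => triv_iff.1 (h M), fun h M _ _ _ _ _ => triv_iff.2 (h M)⟩

private theorem even_iff {p : 𝓞 K × 𝓞 K} {D : K} : EvenRank p D ↔
    H88PL.Ev (p.1 : K) (p.2 : K) D :=
  Iff.rfl

omit [NumberField K] in
private theorem under_iff {L : Type} [Field L] [NumberField L] [Algebra K L]
    {v : HeightOneSpectrum (𝓞 K)} {w : HeightOneSpectrum (𝓞 L)} :
    w.asIdeal.under (𝓞 K) = v.asIdeal ↔ H76PP.dn K w = v :=
  ⟨fun h => HeightOneSpectrum.ext h, fun h => by rw [← h]; rfl⟩

private theorem loc_iff {N : Type} [Field N] [Algebra K N] {v : HeightOneSpectrum (𝓞 K)}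
    {p : 𝓞 K × 𝓞 K} {D : K} :
    Loc N v p D ↔ H36ZO.LocC K N v (D ^ 2 * (p.1 : K)) (D ^ 3 * (p.2 : K)) := by
  unfold Loc H36ZO.LocC
  simp only [under_iff]
  exact Iff.rfl

omit [NumberField K] in
private theorem ind_sq {N : Type} [Field N] [Algebra K N] {J : Type} {p : J → 𝓞 K × 𝓞 K}
    (h : Indep N p) (j : J) :
    ¬ IsSquare (algebraMap K N (H26OD.dd3 ((p j).1 : K) ((p j).2 : K))) := by
  have h1 := h.2 {j} (Finset.singleton_nonempty j)
  rwa [Finset.prod_singleton] at h1

private theorem local_iff {N : Type} [Field N] [NumberField N] [Algebra K N] [IsGalois K N]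
    {J : Type} {p : J → 𝓞 K × 𝓞 K} (h : Indep N p) (j : J) {D : K} (hD : D ≠ 0) :
    Local N (p j) D ↔ H30ZO.RealAt K N ((p j).1 : K) ((p j).2 : K) ∧
      ∀ v, H36CY.DescAt K N v (D ^ 2 * ((p j).1 : K)) (D ^ 3 * ((p j).2 : K)) := by
  refine and_congr H38OD.realAt_iff.symm (forall_congr' fun v => ?_)
  rw [loc_iff]
  exact H38OD.locC_iff (H38OD.noroot_tw hD (H26OD.noroot_N (h.1 j) (ind_sq h j)))

section Bal

variable {N : Type} [Field N] [NumberField N] [Algebra K N] [Normal K N]

omit [NumberField K] [Normal K N] in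
private theorem cob_iff {W : WeierstrassCurve N} {f : Fun W} : IsCob W f ↔ f ∈ H88GN.Co N W := by
  refine exists_congr fun T => and_congr_right fun _ => forall_congr' fun σ => ?_
  rw [H88GN.act_map]

private theorem submod_iff {V : WeierstrassCurve K} {W : WeierstrassCurve N}
    (hV : V.map (algebraMap K N) = W) {U : AddSubgroup (Fun W)} :
    Submod K W U ↔ H88GN.SB (fun (s : AlgebraicClosure N ≃ₐ[K] AlgebraicClosure N) f =>
      H73IS.cj (inv_up hV) s f) (H88GN.Co N W) (H88GN.Se N W) U := by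
  refine and_congr ⟨fun h f hf => h f (cob_iff.2 hf), fun h f hf => h (cob_iff.1 hf)⟩
    (and_congr Iff.rfl (forall_congr' fun s => forall_congr' fun f => forall_congr' fun hf => ?_))
  exact ⟨fun h => h _ ((H88GN.conj_iff hV s f _).2 rfl), fun h f' h' => by
    rw [(H88GN.conj_iff hV s f f').1 h']
    exact h⟩

private theorem socle_eq {V : WeierstrassCurve K} {W : WeierstrassCurve N}
    (hV : V.map (algebraMap K N) = W) :
    Socle K W = H88GN.socC (fun (s : AlgebraicClosure N ≃ₐ[K] AlgebraicClosure N) f =>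
      H73IS.cj (inv_up hV) s f) (H88GN.Co N W) (H88GN.Se N W) := by
  unfold Socle H88GN.socC
  congr 1
  ext U
  refine and_congr (submod_iff hV) (forall_congr' fun U' => forall_congr' fun _ => ?_)
  rw [submod_iff hV]
  refine forall_congr' fun _ => or_congr ⟨fun h f hf => cob_iff.1 (h f hf),
    fun h f hf => cob_iff.2 (h hf)⟩ Iff.rfl

private theorem bal_iff {p : 𝓞 K × 𝓞 K} {D : K} : Balanced N p D ↔
    H88GN.BalC (fun (s : AlgebraicClosure N ≃ₐ[K] AlgebraicClosure N) f =>
        H73IS.cj (inv_up (H88GN.sw_map (N := N) (A := D ^ 2 * (p.1 : K))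
          (B := D ^ 3 * (p.2 : K)))) s f)
      (H88GN.Co N (H88GN.sw (algebraMap K N (D ^ 2 * (p.1 : K))) (algebraMap K N (D ^ 3 * (p.2 : K)))))
      (H88GN.Se N (H88GN.sw (algebraMap K N (D ^ 2 * (p.1 : K)))
        (algebraMap K N (D ^ 3 * (p.2 : K))))) := by
  have hV := H88GN.sw_map (N := N) (A := D ^ 2 * (p.1 : K)) (B := D ^ 3 * (p.2 : K))
  have e := socle_eq hV
  unfold Balanced H88GN.BalC
  refine exists_congr fun β => ?_
  rw [← e]
  refine and_congr Iff.rfl (and_congr ?_ (and_congr ?_ ?_))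
  · refine forall_congr' fun s => forall_congr' fun f => forall_congr' fun hf =>
      forall_congr' fun g => forall_congr' fun hg => ?_
    exact ⟨fun h => h _ _ ((H88GN.conj_iff hV s f _).2 rfl) ((H88GN.conj_iff hV s g _).2 rfl),
      fun h f' g' h1 h2 => by
        rw [(H88GN.conj_iff hV s f f').1 h1, (H88GN.conj_iff hV s g g').1 h2]
        exact h⟩
  · exact forall_congr' fun f => imp_congr cob_iff Iff.rfl
  · exact forall_congr' fun f => forall_congr' fun hf => imp_congr Iff.rfl cob_iff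

end Bal

/-- One element gives many. -/
private theorem many_of {N : Type} [Field N] [NumberField N] [Algebra K N] [IsGalois K N]
    {J : Type} [Fintype J] [Nonempty J] {p : J → 𝓞 K × 𝓞 K} (hp : Indep N p) {D₀ D₁ : K}
    (h0 : D₀ ≠ 0) {S : Finset (HeightOneSpectrum (𝓞 K))} {R : Set (K →+* ℝ)}
    (hn : Near S R D₀ D₁) (ht : ∀ j, TrivOver N (p j) D₁) : Many N p S R D₀ := by
  obtain ⟨c, hc, X₀, h⟩ := H30QC.many_twists (N := N) (fun j => (p j).1) (fun j => (p j).2)
    hp.1 hp.2 hn.1 (fun j => over_iff.1 (ht j)) S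
  refine ⟨c, hc, X₀, fun X hX => ?_⟩
  obtain ⟨F, h3, h2, h1⟩ := h X hX
  refine ⟨F, fun D hD => ?_, h2, h3⟩
  obtain ⟨g2, g1, g3, g4, -, g5⟩ := h1 D hD
  have e : (D : K) / D₀ = (D : K) / D₁ * (D₁ / D₀) := by
    have := hn.1
    field_simp
  refine ⟨⟨g2, fun v hv => ?_, fun s hs => ?_⟩, fun j => over_iff.2 (g5 j), g1⟩
  · rw [e, map_mul]
    exact (g3 v hv).mul (hn.2.1 v hv)
  · rw [e, map_mul]
    exact mul_pos (g4 s) (hn.2.2 s hs)

/-- Many gives one. -/
private theorem one_of {N : Type} [Field N] [NumberField N] [Algebra K N] {J : Type}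
    {p : J → 𝓞 K × 𝓞 K} {D₀ : K} {S : Finset (HeightOneSpectrum (𝓞 K))} {R : Set (K →+* ℝ)}
    (h : Many N p S R D₀) : ∃ D : K, Near S R D₀ D ∧ ∀ j, TrivOver N (p j) D := by
  obtain ⟨c, hc, X₀, h⟩ := h
  obtain ⟨F, h1, -, h3⟩ := h (max X₀ 3) (le_max_left _ _)
  have hX : (3 : ℝ) ≤ max X₀ 3 := le_max_right _ _
  have hlog : 0 < Real.log (max X₀ 3) := Real.log_pos (by linarith)
  have hpos : 0 < (max X₀ 3) ^ Module.finrank ℚ K / Real.log (max X₀ 3) ^ (1 - c) := by
    positivity
  have hF : 0 < F.card := by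
    exact_mod_cast hpos.trans_le h3
  obtain ⟨D, hD⟩ := Finset.card_pos.1 hF
  exact ⟨(D : K), (h1 D hD).1, (h1 D hD).2.1⟩

private theorem many_B {N : Type} [Field N] [NumberField N] [Algebra K N] [IsGalois K N]
    {J : Type} [Fintype J] [Nonempty J] {p : J → 𝓞 K × 𝓞 K} (hp : Indep N p) {D₀ : K}
    (h0 : D₀ ≠ 0) (hl : ∀ j, Local N (p j) D₀ ∧ Balanced N (p j) D₀)
    (S : Finset (HeightOneSpectrum (𝓞 K))) : Many N p S ∅ D₀ := by
  obtain ⟨D, g1, g2, -⟩ := H26GX.main_N (N := N) hp.1 hp.2 h0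
    (fun j => ((local_iff hp j h0).1 (hl j).1).1) (fun j => ((local_iff hp j h0).1 (hl j).1).2)
    (fun j q W hW => (H88GN.balC_iff q.S h0 hW).1 (bal_iff.1 (hl j).2)) S ∅
  exact many_of hp h0 ⟨g1.rel.n1, g1.rel.sq, fun s _ => g1.rel.pos s⟩ fun j => over_iff.2 (g2 j)

private theorem many_E {N : Type} [Field N] [NumberField N] [Algebra K N] [IsGalois K N]
    (hN : NormalSylow K N) {J : Type} [Fintype J] [Nonempty J] {p : J → 𝓞 K × 𝓞 K}
    (hp : Indep N p) {D₀ : K} (h0 : D₀ ≠ 0) (he : ∀ j, EvenRank (p j) D₀)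
    (hl : ∀ j, Local N (p j) D₀) (S : Finset (HeightOneSpectrum (𝓞 K))) : Many N p S ∅ D₀ := by
  obtain ⟨P, hP⟩ := hN
  obtain ⟨F, hF, hodd, r, hr⟩ := H88OD.exists_F P hP
  obtain ⟨D, g1, g2, -⟩ := H88GN.main_NJZ (F := F) (N := N) hodd hr hp.1 hp.2 h0
    (fun j => even_iff.1 (he j)) (fun j => ((local_iff hp j h0).1 (hl j)).1)
    (fun j => ((local_iff hp j h0).1 (hl j)).2) S ∅
  exact many_of hp h0 ⟨g1.rel.n1, g1.rel.sq, fun s _ => g1.rel.pos s⟩ fun j => over_iff.2 (g2 j)

private theorem nec {N : Type} [Field N] [NumberField N] [Algebra K N] [IsGalois K N]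
    {J : Type} [Fintype J] {p : J → 𝓞 K × 𝓞 K} (hp : Indep N p) {D₀ : K}
    (h0 : D₀ ≠ 0) : ∃ S₀ : Finset (HeightOneSpectrum (𝓞 K)), ∀ D : K, Near S₀ ∅ D₀ D →
      (∀ j, TrivOver N (p j) D) → ∀ j, Local N (p j) D₀ ∧ Balanced N (p j) D₀ := by
  obtain ⟨S₀, hS₀⟩ := H26GX.nec_N2 (N := N) hp.1 (ind_sq hp) h0
  refine ⟨S₀, fun D h1 h2 j => ?_⟩
  obtain ⟨g1, g2, g3⟩ := hS₀ D h1.1 h1.2.1 (fun s => h1.2.2 s (Set.notMem_empty s))
    (fun j => over_iff.1 (h2 j)) j
  refine ⟨(local_iff hp j h0).2 ⟨g1, g2⟩, bal_iff.2 ?_⟩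
  obtain ⟨q⟩ := H26GX.exists_pk (F := N) (p j).1 (p j).2 (hp.1 j) (ind_sq hp j)
  obtain ⟨W, hW⟩ := H88GX.exists_VG q.S h0
  exact (H88GN.balC_iff q.S h0 hW).2 (g3 q W hW)

omit [NumberField K] in
private theorem ind_unit {N : Type} [Field N] [Algebra K N] {p : 𝓞 K × 𝓞 K}
    (h : ∀ t : K, t ^ 3 + (p.1 : K) * t + (p.2 : K) ≠ 0)
    (h' : ¬ IsSquare (algebraMap K N (-(4 * (p.1 : K) ^ 3 + 27 * (p.2 : K) ^ 2)))) :
    Indep N (fun _ : Unit => p) := by
  refine ⟨fun _ => h, fun I hI => ?_⟩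
  have e : I = {()} := by
    obtain ⟨x, hx⟩ := hI
    ext y
    exact ⟨fun _ => Finset.mem_singleton.2 rfl, fun _ => hx⟩
  rwa [e, Finset.prod_singleton]

private theorem bal_even {N : Type} [Field N] [NumberField N] [Algebra K N] [IsGalois K N]
    (hN : NormalSylow K N) {J : Type} {p : J → 𝓞 K × 𝓞 K} (hp : Indep N p) {D₀ : K} (h0 : D₀ ≠ 0)
    (j : J) (hl : Local N (p j) D₀) : Balanced N (p j) D₀ ↔ EvenRank (p j) D₀ := by
  have hq : Indep N (fun _ : Unit => p j) := ind_unit (hp.1 j) (ind_sq hp j)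
  constructor
  · intro hb
    obtain ⟨S₀, hS₀⟩ := H88PL.exists_S0 (N := N) hq.1 (ind_sq hq) h0 ∅
    obtain ⟨D, h1, h2⟩ := one_of (many_B hq h0 (fun _ => ⟨hl, hb⟩) S₀)
    obtain ⟨-, h3⟩ := hS₀ D h1.1 h1.2.1 h1.2.2 fun i => over_iff.1 (h2 i)
    rcases h3 with h3 | ⟨⟨s, hs⟩, -⟩
    · exact even_iff.2 (h3 ())
    · exact absurd hs (Set.notMem_empty s)
  · intro he
    obtain ⟨S₀, hS₀⟩ := nec hq h0
    obtain ⟨D, h1, h2⟩ := one_of (many_E hN hq h0 (fun _ => he) (fun _ => hl) S₀)
    exact (hS₀ D h1 h2 ()).2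

private theorem par_iff {N : Type} [Field N] [NumberField N] [Algebra K N] [IsGalois K N]
    (hN : NormalSylow K N) {J : Type} {p : J → 𝓞 K × 𝓞 K} (hp : Indep N p) {D₀ : K} (h0 : D₀ ≠ 0)
    (hl : ∀ j, Local N (p j) D₀) (R : Set (K →+* ℝ)) : Parity N R p D₀ ↔
      (∀ j, EvenRank (p j) D₀) ∨ (R.Nonempty ∧ ∀ j, ¬ EvenRank (p j) D₀) := by
  unfold Parity
  refine or_congr (forall_congr' fun j => bal_even hN hp h0 j (hl j))
    (and_congr_right fun _ => forall_congr' fun j => not_congr (bal_even hN hp h0 j (hl j)))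

private theorem crit {N : Type} [Field N] [NumberField N] [Algebra K N] [IsGalois K N]
    {J : Type} [Fintype J] [Nonempty J] {p : J → 𝓞 K × 𝓞 K} (hp : Indep N p) {D₀ : K}
    (h0 : D₀ ≠ 0) (R : Set (K →+* ℝ)) (hR : R = ∅ ∨ NormalSylow K N) :
    ∃ S₀ : Finset (HeightOneSpectrum (𝓞 K)),
      List.TFAE [(∀ j, Local N (p j) D₀) ∧ Parity N R p D₀,
        ∃ D : K, Near S₀ R D₀ D ∧ ∀ j, TrivOver N (p j) D,
        ∀ S : Finset (HeightOneSpectrum (𝓞 K)), Many N p S R D₀] := by
  by_cases hE : R = ∅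
  · subst hE
    obtain ⟨S₀, hS₀⟩ := nec hp h0
    refine ⟨S₀, ?_⟩
    tfae_have 1 → 3 := by
      rintro ⟨hl, hb | ⟨⟨s, hs⟩, -⟩⟩ S
      · exact many_B hp h0 (fun j => ⟨hl j, hb j⟩) S
      · exact absurd hs (Set.notMem_empty s)
    tfae_have 3 → 2 := fun h => one_of (h S₀)
    tfae_have 2 → 1 := by
      rintro ⟨D, h1, h2⟩
      have h3 := hS₀ D h1 h2
      exact ⟨fun j => (h3 j).1, Or.inl fun j => (h3 j).2⟩
    tfae_finish
  · have hN : NormalSylow K N := hR.resolve_left hE
    obtain ⟨S₀, hS₀⟩ := H88PL.exists_S0 (N := N) hp.1 (ind_sq hp) h0 R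
    refine ⟨S₀, ?_⟩
    tfae_have 1 → 3 := by
      rintro ⟨hl, hpar⟩ S
      rcases (par_iff hN hp h0 hl R).1 hpar with he | ⟨⟨s, hs⟩, ho⟩
      · obtain ⟨D, h1, h2⟩ := one_of (many_E hN hp h0 he hl S)
        exact many_of hp h0 ⟨h1.1, h1.2.1, fun t _ => h1.2.2 t (Set.notMem_empty t)⟩ h2
      · obtain ⟨δ, h1, h2, h3, h4, h5⟩ := H88PL.real_R (N := N) hp.1 hp.2 h0 ho s
          (fun j => ((local_iff hp j h0).1 (hl j)).2) S
        have h6 : D₀ * δ ≠ 0 := mul_ne_zero h0 h1
        obtain ⟨D, g1, g2⟩ := one_of (many_E hN hp h6 h4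
          (fun j => (local_iff hp j h6).2 ⟨((local_iff hp j h0).1 (hl j)).1, h5 j⟩) S)
        have e : D / D₀ = D / (D₀ * δ) * δ := by field_simp
        refine many_of hp h0 ⟨g1.1, fun v hv => ?_, fun t ht => ?_⟩ g2
        · rw [e, map_mul]
          exact (g1.2.1 v hv).mul (h2 v hv)
        · rw [e, map_mul]
          exact mul_pos (g1.2.2 t (Set.notMem_empty t)) (h3 t fun h => ht (by rw [h]; exact hs))
    tfae_have 3 → 2 := fun h => one_of (h S₀)
    tfae_have 2 → 1 := by
      rintro ⟨D, h1, h2⟩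
      obtain ⟨g1, g2⟩ := hS₀ D h1.1 h1.2.1 h1.2.2 fun j => over_iff.1 (h2 j)
      have hl : ∀ j, Local N (p j) D₀ := fun j => (local_iff hp j h0).2 (g1 j)
      exact ⟨hl, (par_iff hN hp h0 hl R).2 g2⟩
    tfae_finish

private theorem no_two {N : Type} [Field N] [NumberField N] [Algebra K N]
    (hodd : Odd (Module.finrank K N)) (k k' : Type) [Field k] [NumberField k] [Field k']
    [NumberField k'] [Algebra K k] [Algebra K k'] [Algebra k k'] [IsScalarTower K k k']
    [Algebra k' N] [IsScalarTower K k' N] : Module.finrank k k' ≠ 2 := by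
  intro two
  have h1 := Module.finrank_mul_finrank K k k'
  have h2 := Module.finrank_mul_finrank K k' N
  rw [← h2, ← h1, two] at hodd
  exact (Nat.not_even_iff_odd.2 hodd) (by
    rw [Nat.even_mul, Nat.even_mul]
    exact Or.inl (Or.inr even_two))

private theorem odd_case (N : Type) [Field N] [NumberField N] [Algebra K N] (hgal : IsGalois K N)
    (hodd : Odd (Module.finrank K N)) : NormalSylow K N ∧ ∀ (p : 𝓞 K × 𝓞 K) (D : K), Local N p D := by
  refine ⟨⟨(default : Sylow 2 (N ≃ₐ[K] N)), ?_⟩, fun p D => ⟨?_, fun v => ?_⟩⟩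
  · have h : Odd (Nat.card (N ≃ₐ[K] N)) := by
      rw [IsGalois.card_aut_eq_finrank]
      exact hodd
    have _ : Fact (Nat.Prime 2) := ⟨Nat.prime_two⟩
    obtain ⟨n, hn⟩ := (default : Sylow 2 (N ≃ₐ[K] N)).isPGroup'.exists_card_eq
    have h1 : Nat.card ((default : Sylow 2 (N ≃ₐ[K] N)) : Subgroup (N ≃ₐ[K] N)) ∣
        Nat.card (N ≃ₐ[K] N) := Subgroup.card_subgroup_dvd_card _
    have h2 : n = 0 := by
      by_contra hne
      have h3 : 2 ∣ Nat.card ((default : Sylow 2 (N ≃ₐ[K] N)) : Subgroup (N ≃ₐ[K] N)) := by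
        rw [hn]
        exact dvd_pow_self 2 hne
      exact (Nat.not_even_iff_odd.2 h) (even_iff_two_dvd.2 (h3.trans h1))
    rw [h2, pow_zero] at hn
    rw [Subgroup.card_eq_one.1 hn]
    infer_instance
  · refine H38OD.realAt_iff.1 fun k k' _ _ _ _ _ _ _ _ _ _ _ _ _ two s => ?_
    exact absurd two (no_two hodd k k')
  · intro k k' _ _ _ _ _ _ _ _ _ _ two
    exact absurd two (no_two hodd k k')

/-- Let `K` be a number field.
(1) Let `N / K` be a finite Galois extension and let `E_j : y² = x³ + A_j x + B_j`, `j ∈ J`, be finitely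
many elliptic curves over `K` which satisfy `Indep`.  Let `D₀ ∈ K` be nonzero and let `R` be a set of
real places of `K`, which is empty or the Galois group of `N / K` has a normal Sylow 2-subgroup.  For a
finite set `S₀` of primes the following are equivalent: the twists `E_{j, D₀}` satisfy the local
conditions, and they are all balanced over `N`, or `R` is not empty and none is; there is `D` near to
`D₀` (for `S₀` and `R`) with `TrivOver` for all `j`; for every finite set `S` of primes there are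
many such `D` (`Many`).
(2) If the Galois group of `N / K` has a normal Sylow 2-subgroup then a twist `E_{j, D₀}` which satisfies
the local conditions is balanced over `N` if and only if its two-Selmer rank over `K` is even.
(3) If the degree of the Galois extension `N / K` is odd then the Galois group has a normal Sylow
2-subgroup and the local conditions always hold.
(4) For every nonzero ideal `m` and every `ε > 0` there is a finite set `T` of totally positive
`D ≡ 1 mod m` such that for all large `X` for all but at most `ε * #(Box K X)` curves `E` in `Box K X`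
there is `D₀ ∈ T` such that for all finite Galois extensions `N / K` and all finite sets `S` of primes
there are many `D` near to `D₀` with `TrivOver`, if the degree of `N / K` is odd, or if its Galois group
has a normal Sylow 2-subgroup, `E` satisfies `Indep` and `E_{D₀}` satisfies the local conditions. -/
theorem result (K : Type) [Field K] [NumberField K] :
    (∀ (N : Type) [Field N] [NumberField N] [Algebra K N], IsGalois K N →
      ∀ (J : Type) [Fintype J] [Nonempty J] (p : J → 𝓞 K × 𝓞 K), Indep N p →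
      ∀ D₀ : K, D₀ ≠ 0 →
        (∀ R : Set (K →+* ℝ), (R = ∅ ∨ NormalSylow K N) →
          ∃ S₀ : Finset (HeightOneSpectrum (𝓞 K)),
            List.TFAE [(∀ j, Local N (p j) D₀) ∧ Parity N R p D₀,
              ∃ D : K, Near S₀ R D₀ D ∧ ∀ j, TrivOver N (p j) D,
              ∀ S : Finset (HeightOneSpectrum (𝓞 K)), Many N p S R D₀]) ∧
        (NormalSylow K N → ∀ j, Local N (p j) D₀ → (Balanced N (p j) D₀ ↔ EvenRank (p j) D₀))) ∧
    (∀ (N : Type) [Field N] [NumberField N] [Algebra K N], IsGalois K N →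
      Odd (Module.finrank K N) → NormalSylow K N ∧ ∀ (p : 𝓞 K × 𝓞 K) (D : K), Local N p D) ∧
    ∀ m : Ideal (𝓞 K), m ≠ ⊥ → ∀ ε : ℝ, 0 < ε → ∃ (T : Finset (𝓞 K)) (X₀ : ℝ),
      (∀ D ∈ T, D ≠ 0 ∧ D - 1 ∈ m ∧ ∀ s : K →+* ℝ, 0 < s (D : K)) ∧
      ∀ X : ℝ, X₀ ≤ X → (Box K X).Finite ∧
        ({p : 𝓞 K × 𝓞 K | p ∈ Box K X ∧
          ¬ ∃ D₀ ∈ T, ∀ (N : Type) [Field N] [NumberField N] [Algebra K N], IsGalois K N →
            (Odd (Module.finrank K N) ∨
              (NormalSylow K N ∧ Indep N (fun _ : Unit => p) ∧ Local N p (D₀ : K))) →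
            ∀ S : Finset (HeightOneSpectrum (𝓞 K)), Many N (fun _ : Unit => p) S ∅ (D₀ : K)}.ncard : ℝ) ≤
          ε * ((Box K X).ncard : ℝ) := by
  refine ⟨fun N _ _ _ hgal J _ _ p hp D₀ h0 => ⟨fun R hR => crit hp h0 R hR,
    fun hN j hl => bal_even hN hp h0 j hl⟩, odd_case, ?_⟩
  · intro m hm ε hε
    obtain ⟨T, X₀, h1, h2⟩ := H30OD.de_A K hm hε
    refine ⟨T, X₀, h1, fun X hX => ?_⟩
    have hbox : Box K X = H76PP.Bx K X := by
      ext p
      exact ⟨fun h => ⟨fun s => (h s).1, fun s => (h s).2⟩, fun h s => ⟨h.1 s, h.2 s⟩⟩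
    rw [hbox]
    refine ⟨H76PP.Bx_fin K X, le_trans ?_ (h2 X hX)⟩
    refine Nat.cast_le.2 (Set.ncard_le_ncard ?_ ((H76PP.Bx_fin K X).subset fun p hp => hp.1))
    rintro p ⟨hp, hno⟩
    refine ⟨hp, fun hg => hno ?_⟩
    obtain ⟨D, hD, hT⟩ := hg.tw
    have hD0 : (D : K) ≠ 0 := by
      intro h
      apply (h1 D hD).1
      exact_mod_cast h
    refine ⟨D, hD, fun N _ _ _ hgal hc S => ?_⟩
    have hk : H88OD.selCard K ((D : K) ^ 2 * (p.1 : K)) ((D : K) ^ 3 * (p.2 : K)) = 4 ^ 0 := by
      rw [pow_zero]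
      exact H88OD.selCard_of_Tv (fun v => v.valuation_le_one p.1) (fun v => v.valuation_le_one p.2)
        hg.irr hg.ne hg.nsq hD0 hT
    rcases hc with hodd | ⟨hN, hi, hl⟩
    · obtain ⟨hN, hl⟩ := odd_case N hgal hodd
      exact many_E hN (ind_unit hg.irr fun h => hg.nsq (H30OD.sq_down hodd h)) hD0
        (fun _ => ⟨0, hk⟩) (fun _ => hl p D) S
    · exact many_E hN hi hD0 (fun _ => ⟨0, hk⟩) (fun _ => hl) S

end Pool.Agent.Results.MP_78d38b_nt.GaloisTwists
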