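import Pool.Agent.H88.OD.Fe
import Pool.Agent.H30.OD.De

/-!
Let `K` be a number field, `F / K` a Galois extension of odd degree and `E : y² = x³ + A x + B` an
elliptic curve over `K` whose field of points of order two has Galois group `S₃` over `K`.  There are
quadratic twists of `E` whose groups of points are finite of odd order and whose Tate-Shafarevich
groups have trivial two-primary part over all fields between `K` and `F` if and only if some quadratic
twist of `E` has even two-Selmer rank over `K`.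
-/

set_option autoImplicit false
open scoped Classical

namespace Pool.Agent.Results.MP_78d38b_nt.OddExtensions

open NumberField WeierstrassCurve IsDedekindDomain Pool.Agent.H10

/-- The pairs `(A, B)` of algebraic integers of `K` of height at most `X`: the absolute values of all
complex conjugates of `A` are at most `X²` and those of `B` are at most `X³`. -/
def Box (K : Type) [Field K] [NumberField K] (X : ℝ) : Set (𝓞 K × 𝓞 K) :=
  {p | ∀ s : K →+* ℂ, ‖s (p.1 : K)‖ ≤ X ^ 2 ∧ ‖s (p.2 : K)‖ ≤ X ^ 3}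

variable {K : Type} [Field K] [NumberField K]

/-- The quadratic twist `E_D : y² = x³ + D² A x + D³ B` over the extension `M` of `K`, where
`p = (A, B)`. -/
def curve (p : 𝓞 K × 𝓞 K) (D : K) (M : Type) [Field M] [Algebra K M] : WeierstrassCurve M :=
  ⟨0, 0, 0, algebraMap K M (D ^ 2 * p.1), algebraMap K M (D ^ 3 * p.2)⟩

/-- The group `E_D(M)` is finite of odd order and the Tate-Shafarevich group of `E_D` over `M` has no
nontrivial element of two-power order. -/
def Triv (p : 𝓞 K × 𝓞 K) (D : K) (M : Type) [Field M] [NumberField M] [Algebra K M] : Prop :=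
  Finite (curve p D M).toAffine.Point ∧ Odd (Nat.card (curve p D M).toAffine.Point) ∧
    Sha2Trivial M (curve p D M)

/-- `D ≠ 0`, and `Triv` holds over all number fields between `K` and `F`. -/
def TrivOver (F : Type) [Field F] [Algebra K F] (p : 𝓞 K × 𝓞 K) (D : K) : Prop :=
  D ≠ 0 ∧ ∀ (M : Type) [Field M] [NumberField M] [Algebra K M] [Algebra M F] [IsScalarTower K M F],
    Triv p D M

/-- Functions on the Galois group of `K` with values in `W(K̄)`. -/
abbrev Fun (W : WeierstrassCurve K) : Type :=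
  (AlgebraicClosure K ≃ₐ[K] AlgebraicClosure K) →
    (W.baseChange (AlgebraicClosure K)).toAffine.Point

/-- The locally constant one-cocycles with values in the points killed by two which become
coboundaries in `W` over all completions of `K`. -/
def IsSel (W : WeierstrassCurve K) (f : Fun W) : Prop :=
  IsCocycle K W f ∧ IsLocTriv K W f ∧ ∀ σ, f σ + f σ = 0

/-- The difference is the coboundary of a point killed by two. -/
def Cohom (W : WeierstrassCurve K) (f g : {f : Fun W // IsSel W f}) : Prop :=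
  ∃ T : (W.baseChange (AlgebraicClosure K)).toAffine.Point,
    T + T = 0 ∧ ∀ σ : AlgebraicClosure K ≃ₐ[K] AlgebraicClosure K,
      f.1 σ - g.1 σ = (WeierstrassCurve.Affine.Point.map σ.toAlgHom :
        (W.baseChange (AlgebraicClosure K)).toAffine.Point →+
          (W.baseChange (AlgebraicClosure K)).toAffine.Point) T - T

/-- `D ≠ 0`, and the two-Selmer group of `E_D` over `K` has order `4 ^ k` for some `k`: the two-Selmer
rank is even. -/
def EvenRank (p : 𝓞 K × 𝓞 K) (D : K) : Prop :=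
  D ≠ 0 ∧ ∃ k : ℕ, Nat.card (Quot (Cohom (curve p D K))) = 4 ^ k

/-- `x³ + A x + B` has no root in `K` and its discriminant `-(4 A³ + 27 B²)` is not a square in `K`:
the splitting field of `x³ + A x + B` has Galois group `S₃`. -/
def Full (p : 𝓞 K × 𝓞 K) : Prop :=
  (∀ t : K, t ^ 3 + (p.1 : K) * t + (p.2 : K) ≠ 0) ∧
    ¬ IsSquare (-(4 * (p.1 : K) ^ 3 + 27 * (p.2 : K) ^ 2))

/-- `D / D₀` is a square in the completions at the primes of `S` and positive at all real places. -/
def Near (S : Finset (HeightOneSpectrum (𝓞 K))) (D₀ D : K) : Prop :=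
  (∀ v ∈ S, IsSquare (algebraMap K (v.adicCompletion K) (D / D₀))) ∧ ∀ s : K →+* ℝ, 0 < s (D / D₀)

/-- Finite abelian groups of odd order. -/
private theorem odd_iff {G : Type} [AddCommGroup G] [Finite G] :
    Odd (Nat.card G) ↔ ∀ P : G, P + P = 0 → P = 0 := by
  constructor
  · intro h P hP
    have h1 : addOrderOf P ∣ 2 := addOrderOf_dvd_of_nsmul_eq_zero (by rw [two_nsmul, hP])
    rcases (Nat.dvd_prime Nat.prime_two).1 h1 with h2 | h2
    · exact AddMonoid.addOrderOf_eq_one_iff.1 h2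
    · exfalso
      have h3 := addOrderOf_dvd_natCard P
      rw [h2] at h3
      exact (Nat.not_even_iff_odd.2 h) (even_iff_two_dvd.2 h3)
  · intro h
    rw [← Nat.not_even_iff_odd, even_iff_two_dvd]
    intro h2
    obtain ⟨P, hP⟩ := exists_prime_addOrderOf_dvd_card' 2 h2
    have h3 : P + P = 0 := by
      rw [← two_nsmul, ← hP]
      exact addOrderOf_nsmul_eq_zero P
    rw [h P h3, addOrderOf_zero] at hP
    norm_num at hP

private theorem triv_iff {p : 𝓞 K × 𝓞 K} {D : K} {M : Type} [Field M] [NumberField M]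
    [Algebra K M] : Triv p D M ↔
      H30ZO.Tv M (algebraMap K M (D ^ 2 * (p.1 : K))) (algebraMap K M (D ^ 3 * (p.2 : K))) := by
  constructor
  · rintro ⟨h1, h2, h3⟩
    exact ⟨h1, (@odd_iff _ _ h1).1 h2, h3⟩
  · rintro ⟨h1, h2, h3⟩
    exact ⟨h1, (@odd_iff _ _ h1).2 h2, h3⟩

private theorem even_iff {p : 𝓞 K × 𝓞 K} {D : K} : EvenRank p D ↔
    D ≠ 0 ∧ ∃ k : ℕ, H88OD.selCard K (D ^ 2 * (p.1 : K)) (D ^ 3 * (p.2 : K)) = 4 ^ k :=
  Iff.rfl

private theorem int_val (x : 𝓞 K) (v : HeightOneSpectrum (𝓞 K)) :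
    v.valuation K (x : K) ≤ 1 := v.valuation_le_one x

private theorem ne_of_full {p : 𝓞 K × 𝓞 K} (h : Full p) :
    4 * (p.1 : K) ^ 3 + 27 * (p.2 : K) ^ 2 ≠ 0 := by
  intro h0
  apply h.2
  rw [h0, neg_zero]
  exact ⟨0, (mul_zero 0).symm⟩

private theorem even_of_triv {p : 𝓞 K × 𝓞 K} (h : Full p) {F : Type} [Field F] [Algebra K F]
    {D : K} (hD : TrivOver F p D) : EvenRank p D := by
  refine even_iff.2 ⟨hD.1, 0, ?_⟩
  rw [pow_zero]
  refine H88OD.selCard_of_Tv (int_val _) (int_val _) h.1 (ne_of_full h) h.2 hD.1 ?_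
  exact triv_iff.1 (hD.2 K)

/-- Let `K` be a number field and let `E : y² = x³ + A x + B`, `A, B ∈ 𝓞 K`, have no point of order
two over `K` and nonsquare discriminant. Let `F / K` be a Galois extension of odd degree.
(1) If the twist `E_{D₀}` has even two-Selmer rank over `K` then for every finite set `S` of primes
there is a sequence of elements `D` of `K`, pairwise different modulo squares, such that `D / D₀` is
positive at the real places and a square at the primes of `S` and such that `E_D` has a finite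
group of points of odd order and a Tate-Shafarevich group with trivial two-primary part over all
number fields between `K` and `F`. Such twists of `E` exist if and only if some twist of `E` has even
two-Selmer rank over `K`.
(2) This is the case if `K` has a real place.
(3) It is the case for all but a proportion `ε` of the curves over `K`, for every `ε > 0`, with a twist
in a finite set of totally positive elements `D ≡ 1 mod m`. -/
theorem result (K : Type) [Field K] [NumberField K] :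
    (∀ p : 𝓞 K × 𝓞 K, Full p → ∀ (F : Type) [Field F] [NumberField F] [Algebra K F],
      IsGalois K F → Odd (Module.finrank K F) →
        (∀ D₀ : K, EvenRank p D₀ → ∀ S : Finset (HeightOneSpectrum (𝓞 K)),
          ∃ f : ℕ → K, (∀ n, Near S D₀ (f n) ∧ TrivOver F p (f n)) ∧
            ∀ m n, IsSquare (f m * f n) → m = n) ∧
        ((∃ D : K, TrivOver F p D) ↔ ∃ D₀ : K, EvenRank p D₀)) ∧
    (∀ p : 𝓞 K × 𝓞 K, Full p → Nonempty (K →+* ℝ) → ∀ S : Finset (HeightOneSpectrum (𝓞 K)),
      ∃ D : K, EvenRank p D ∧ ∀ v ∈ S, IsSquare (algebraMap K (v.adicCompletion K) D)) ∧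
    ∀ m : Ideal (𝓞 K), m ≠ ⊥ → ∀ ε : ℝ, 0 < ε → ∃ (T : Finset (𝓞 K)) (X₀ : ℝ),
      (∀ D ∈ T, D ≠ 0 ∧ D - 1 ∈ m ∧ ∀ s : K →+* ℝ, 0 < s (D : K)) ∧
      ∀ X : ℝ, X₀ ≤ X → (Box K X).Finite ∧
        ({p : 𝓞 K × 𝓞 K | p ∈ Box K X ∧
          ¬ (Full p ∧ ∃ D ∈ T, EvenRank p (D : K))}.ncard : ℝ) ≤ ε * ((Box K X).ncard : ℝ) := by
  have hmain : ∀ p : 𝓞 K × 𝓞 K, Full p → ∀ (F : Type) [Field F] [NumberField F] [Algebra K F],
      IsGalois K F → Odd (Module.finrank K F) →
        ∀ D₀ : K, EvenRank p D₀ → ∀ S : Finset (HeightOneSpectrum (𝓞 K)),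
          ∃ f : ℕ → K, (∀ n, Near S D₀ (f n) ∧ TrivOver F p (f n)) ∧
            ∀ m n, IsSquare (f m * f n) → m = n := by
    intro p hp F _ _ _ hgal hodd D₀ hD₀ S
    obtain ⟨h0, k, hk⟩ := even_iff.1 hD₀
    obtain ⟨f, h1, h2⟩ := H88OD.main_seq (F := F) hodd (int_val _) (int_val _) hp.1
      (ne_of_full hp) hp.2 h0 hk S
    exact ⟨f, fun n => ⟨⟨(h1 n).1.sq, (h1 n).1.pos⟩, (h1 n).1.n1,
      fun M _ _ _ _ _ => triv_iff.2 ((h1 n).2 M)⟩, h2⟩
  refine ⟨fun p hp F _ _ _ hgal hodd => ⟨hmain p hp F hgal hodd, ?_, ?_⟩, ?_, ?_⟩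
  · rintro ⟨D, hD⟩
    exact ⟨D, even_of_triv hp hD⟩
  · rintro ⟨D₀, hD₀⟩
    obtain ⟨f, h1, -⟩ := hmain p hp F hgal hodd D₀ hD₀ ∅
    exact ⟨f 0, (h1 0).2⟩
  · rintro p hp ⟨s0⟩ S
    obtain ⟨D, h1, h2, h3⟩ := H88OD.exists_selCard (int_val _) (int_val _) hp.1 (ne_of_full hp)
      hp.2 s0 S
    exact ⟨D, even_iff.2 ⟨h1, h3⟩, h2⟩
  · intro m hm ε hε
    obtain ⟨T, X₀, h1, h2⟩ := H30OD.de_A K hm hε
    refine ⟨T, X₀, h1, fun X hX => ?_⟩
    have hbox : Box K X = H76PP.Bx K X := by
      ext p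
      exact ⟨fun h => ⟨fun s => (h s).1, fun s => (h s).2⟩, fun h s => ⟨h.1 s, h.2 s⟩⟩
    rw [hbox]
    refine ⟨H76PP.Bx_fin K X, le_trans ?_ (h2 X hX)⟩
    refine Nat.cast_le.2 (Set.ncard_le_ncard ?_ ((H76PP.Bx_fin K X).subset fun p hp => hp.1))
    rintro p ⟨hp, hno⟩
    refine ⟨hp, fun hg => hno ?_⟩
    obtain ⟨D, hD, hT⟩ := hg.tw
    have hD0 : (D : K) ≠ 0 := by
      intro h
      apply (h1 D hD).1
      exact_mod_cast h
    refine ⟨⟨hg.irr, hg.nsq⟩, D, hD, even_iff.2 ⟨hD0, 0, ?_⟩⟩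
    rw [pow_zero]
    exact H88OD.selCard_of_Tv (int_val _) (int_val _) hg.irr hg.ne hg.nsq hD0 hT

end Pool.Agent.Results.MP_78d38b_nt.OddExtensions
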