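import Pool.Agent.H88.PL.Pf
import Pool.Agent.H30.OD.De

/-!
Let `N / K` be a finite Galois extension of number fields whose Galois group has a normal Sylow
2-subgroup and let `E_j : y² = x³ + A_j x + B_j`, `j ∈ J`, be finitely many elliptic curves over `K` such
that `x³ + A_j x + B_j` has no root in `K` and the discriminants are independent modulo squares in `N`.
The quadratic twists by infinitely many elements `D` near to `D₀` have finite groups of points of odd
order and Tate-Shafarevich groups with trivial two-primary part over all number fields between `K` and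
`N` if and only if the twists by `D₀` satisfy local conditions and a parity condition.
-/

set_option autoImplicit false
open scoped Classical

namespace Pool.Agent.Results.MP_78d38b_nt.TwistCriterion

open NumberField WeierstrassCurve IsDedekindDomain Pool.Agent.H10

/-- The pairs `(A, B)` of algebraic integers of `K` of height at most `X`: the absolute values of all
complex conjugates of `A` are at most `X²` and those of `B` are at most `X³`. -/
def Box (K : Type) [Field K] [NumberField K] (X : ℝ) : Set (𝓞 K × 𝓞 K) :=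
  {p | ∀ s : K →+* ℂ, ‖s (p.1 : K)‖ ≤ X ^ 2 ∧ ‖s (p.2 : K)‖ ≤ X ^ 3}

/-- `N / K` is Galois and its Galois group has a normal Sylow 2-subgroup. -/
def NormalSylow (K N : Type) [Field K] [Field N] [Algebra K N] : Prop :=
  IsGalois K N ∧ ∃ P : Sylow 2 (N ≃ₐ[K] N), (P : Subgroup (N ≃ₐ[K] N)).Normal

variable {K : Type} [Field K] [NumberField K]

/-- The quadratic twist `E_D : y² = x³ + D² A x + D³ B` over the extension `M` of `K`, where
`p = (A, B)`. -/
def curve (p : 𝓞 K × 𝓞 K) (D : K) (M : Type) [Field M] [Algebra K M] : WeierstrassCurve M :=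
  ⟨0, 0, 0, algebraMap K M (D ^ 2 * p.1), algebraMap K M (D ^ 3 * p.2)⟩

/-- The group `E_D(M)` is finite of odd order and the Tate-Shafarevich group of `E_D` over `M` has no
nontrivial element of two-power order. -/
def Triv (p : 𝓞 K × 𝓞 K) (D : K) (M : Type) [Field M] [NumberField M] [Algebra K M] : Prop :=
  Finite (curve p D M).toAffine.Point ∧ Odd (Nat.card (curve p D M).toAffine.Point) ∧
    Sha2Trivial M (curve p D M)

/-- `Triv` holds over all number fields between `K` and `N`. -/
def TrivOver (N : Type) [Field N] [Algebra K N] (p : 𝓞 K × 𝓞 K) (D : K) : Prop :=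
  ∀ (M : Type) [Field M] [NumberField M] [Algebra K M] [Algebra M N] [IsScalarTower K M N],
    Triv p D M

/-- Functions on the Galois group of `K` with values in `W(K̄)`. -/
abbrev Fun (W : WeierstrassCurve K) : Type :=
  (AlgebraicClosure K ≃ₐ[K] AlgebraicClosure K) →
    (W.baseChange (AlgebraicClosure K)).toAffine.Point

/-- The locally constant one-cocycles with values in the points killed by two which become
coboundaries in `W` over all completions of `K`. -/
def IsSel (W : WeierstrassCurve K) (f : Fun W) : Prop :=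
  IsCocycle K W f ∧ IsLocTriv K W f ∧ ∀ σ, f σ + f σ = 0

/-- The difference is the coboundary of a point killed by two. -/
def Cohom (W : WeierstrassCurve K) (f g : {f : Fun W // IsSel W f}) : Prop :=
  ∃ T : (W.baseChange (AlgebraicClosure K)).toAffine.Point,
    T + T = 0 ∧ ∀ σ : AlgebraicClosure K ≃ₐ[K] AlgebraicClosure K,
      f.1 σ - g.1 σ = (WeierstrassCurve.Affine.Point.map σ.toAlgHom :
        (W.baseChange (AlgebraicClosure K)).toAffine.Point →+
          (W.baseChange (AlgebraicClosure K)).toAffine.Point) T - T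

/-- The two-Selmer rank of `E_D` over `K` is even: the two-Selmer group of `E_D` over `K` has order
`4 ^ k` for some `k`. -/
def EvenRank (p : 𝓞 K × 𝓞 K) (D : K) : Prop :=
  ∃ k : ℕ, Nat.card (Quot (Cohom (curve p D K))) = 4 ^ k

/-- The cocycle `f` of the Galois group of `k` in `W` becomes a coboundary over the extension `L`
of `k`. -/
def TrivialOver (k L : Type) [Field k] [NumberField k] [Field L] [Algebra k L]
    (W : WeierstrassCurve k) (f : (AlgebraicClosure k ≃ₐ[k] AlgebraicClosure k) →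
      (W.baseChange (AlgebraicClosure k)).toAffine.Point) : Prop :=
  ∀ ι : AlgebraicClosure k →ₐ[k] AlgebraicClosure L,
    ∃ P : (W.baseChange (AlgebraicClosure L)).toAffine.Point,
    ∀ τ : AlgebraicClosure L ≃ₐ[L] AlgebraicClosure L,
    ∀ σ : AlgebraicClosure k ≃ₐ[k] AlgebraicClosure k,
      (τ.toAlgHom.restrictScalars k).comp ι = ι.comp σ.toAlgHom →
      (WeierstrassCurve.Affine.Point.map ι :
        (W.baseChange (AlgebraicClosure k)).toAffine.Point →+
          (W.baseChange (AlgebraicClosure L)).toAffine.Point) (f σ) =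
        (WeierstrassCurve.Affine.Point.map (τ.toAlgHom.restrictScalars k) :
          (W.baseChange (AlgebraicClosure L)).toAffine.Point →+
            (W.baseChange (AlgebraicClosure L)).toAffine.Point) P - P

/-- The completion of `k'` at `w` as an extension of the subfield `k` of `k'`. -/
noncomputable abbrev compl (k k' : Type) [Field k] [Field k'] [NumberField k'] [Algebra k k']
    (w : HeightOneSpectrum (𝓞 k')) : Algebra k (w.adicCompletion k') :=
  ((algebraMap k' (w.adicCompletion k')).comp (algebraMap k k')).toAlgebra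

/-- The local condition for `E_D` at the prime `v` of `K`: for all number fields `k ≤ k'` between `K`
and `N` with `[k' : k] = 2`, every class of `H¹(k, E_D)` killed by two which is trivial over the
completions of `k'` at all the places above `v` is trivial over the completions of `k` at all the places
above `v`. -/
def Loc (N : Type) [Field N] [Algebra K N] (v : HeightOneSpectrum (𝓞 K)) (p : 𝓞 K × 𝓞 K) (D : K) :
    Prop :=
  ∀ (k k' : Type) [Field k] [NumberField k] [Field k'] [NumberField k'] [Algebra K k] [Algebra K k']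
    [Algebra k k'] [IsScalarTower K k k'] [Algebra k' N] [IsScalarTower K k' N],
    Module.finrank k k' = 2 → ∀ f : (AlgebraicClosure k ≃ₐ[k] AlgebraicClosure k) →
      ((curve p D k).baseChange (AlgebraicClosure k)).toAffine.Point,
    IsCocycle k (curve p D k) f → IsCobound k (curve p D k) (fun σ => 2 • f σ) →
    (∀ w : HeightOneSpectrum (𝓞 k'), w.asIdeal.under (𝓞 K) = v.asIdeal →
      @TrivialOver k (w.adicCompletion k') _ _ _ (compl k k' w) (curve p D k) f) →
    ∀ u : HeightOneSpectrum (𝓞 k), u.asIdeal.under (𝓞 K) = v.asIdeal →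
      TrivialOver k (u.adicCompletion k) (curve p D k) f

/-- The real places of `K` at which `4 A³ + 27 B²` is not positive extend to real places of `N`. -/
def LocReal (N : Type) [Field N] [Algebra K N] (p : 𝓞 K × 𝓞 K) : Prop :=
  ∀ s : K →+* ℝ, s (4 * (p.1 : K) ^ 3 + 27 * (p.2 : K) ^ 2) ≤ 0 →
    ∃ s' : N →+* ℝ, ∀ x : K, s' (algebraMap K N x) = s x

/-- The local conditions for `E_D` at all places of `K`. -/
def Local (N : Type) [Field N] [Algebra K N] (p : 𝓞 K × 𝓞 K) (D : K) : Prop :=
  LocReal N p ∧ ∀ v : HeightOneSpectrum (𝓞 K), Loc N v p D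

/-- `x³ + A x + B` has no root in `K` for `(A, B) = p j`, `j ∈ J`, and the product of the discriminants
`-(4 A³ + 27 B²)` over any nonempty subset of `J` is not a square in `N`. -/
def Indep (N : Type) [Field N] [Algebra K N] {J : Type} (p : J → 𝓞 K × 𝓞 K) : Prop :=
  (∀ (j : J) (t : K), t ^ 3 + ((p j).1 : K) * t + ((p j).2 : K) ≠ 0) ∧
    ∀ I : Finset J, I.Nonempty → ¬ IsSquare (algebraMap K N
      (∏ j ∈ I, -(4 * ((p j).1 : K) ^ 3 + 27 * ((p j).2 : K) ^ 2)))

/-- `D ≠ 0`, and `D / D₀` is a square in the completions at the primes of `S` and positive at the real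
places outside `R`. -/
def Near (S : Finset (HeightOneSpectrum (𝓞 K))) (R : Set (K →+* ℝ)) (D₀ D : K) : Prop :=
  D ≠ 0 ∧ (∀ v ∈ S, IsSquare (algebraMap K (v.adicCompletion K) (D / D₀))) ∧
    ∀ s : K →+* ℝ, s ∉ R → 0 < s (D / D₀)

/-- The two-Selmer ranks over `K` of the twists by `D₀` of all the curves are even, or `R` is not empty
and they are all odd. -/
def Parity (R : Set (K →+* ℝ)) {J : Type} (p : J → 𝓞 K × 𝓞 K) (D₀ : K) : Prop :=
  (∀ j, EvenRank (p j) D₀) ∨ (R.Nonempty ∧ ∀ j, ¬ EvenRank (p j) D₀)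

/-- There is a sequence of elements `D` of `K`, pairwise different modulo squares, which are near to
`D₀` and for which `TrivOver` holds for all the curves. -/
def Many (N : Type) [Field N] [Algebra K N] {J : Type} (p : J → 𝓞 K × 𝓞 K)
    (S : Finset (HeightOneSpectrum (𝓞 K))) (R : Set (K →+* ℝ)) (D₀ : K) : Prop :=
  ∃ f : ℕ → K, (∀ n, Near S R D₀ (f n) ∧ ∀ j, TrivOver N (p j) (f n)) ∧
    ∀ m n, IsSquare (f m * f n) → m = n

/-- Finite abelian groups of odd order. -/
private theorem odd_iff {G : Type} [AddCommGroup G] [Finite G] :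
    Odd (Nat.card G) ↔ ∀ P : G, P + P = 0 → P = 0 := by
  constructor
  · intro h P hP
    have h1 : addOrderOf P ∣ 2 := addOrderOf_dvd_of_nsmul_eq_zero (by rw [two_nsmul, hP])
    rcases (Nat.dvd_prime Nat.prime_two).1 h1 with h2 | h2
    · exact AddMonoid.addOrderOf_eq_one_iff.1 h2
    · exfalso
      have h3 := addOrderOf_dvd_natCard P
      rw [h2] at h3
      exact (Nat.not_even_iff_odd.2 h) (even_iff_two_dvd.2 h3)
  · intro h
    rw [← Nat.not_even_iff_odd, even_iff_two_dvd]
    intro h2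
    obtain ⟨P, hP⟩ := exists_prime_addOrderOf_dvd_card' 2 h2
    have h3 : P + P = 0 := by
      rw [← two_nsmul, ← hP]
      exact addOrderOf_nsmul_eq_zero P
    rw [h P h3, addOrderOf_zero] at hP
    norm_num at hP

omit [NumberField K] in
private theorem triv_iff {p : 𝓞 K × 𝓞 K} {D : K} {M : Type} [Field M] [NumberField M]
    [Algebra K M] : Triv p D M ↔
      H30ZO.Tv M (algebraMap K M (D ^ 2 * (p.1 : K))) (algebraMap K M (D ^ 3 * (p.2 : K))) := by
  constructor
  · rintro ⟨h1, h2, h3⟩
    exact ⟨h1, (@odd_iff _ _ h1).1 h2, h3⟩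
  · rintro ⟨h1, h2, h3⟩
    exact ⟨h1, (@odd_iff _ _ h1).2 h2, h3⟩

private theorem over_iff {p : 𝓞 K × 𝓞 K} {D : K} {N : Type} [Field N] [NumberField N]
    [Algebra K N] : TrivOver N p D ↔ H88PL.TvN K N (p.1 : K) (p.2 : K) D :=
  ⟨fun h M _ _ _ _ _ => triv_iff.1 (h M), fun h M _ _ _ _ _ => triv_iff.2 (h M)⟩

private theorem even_iff {p : 𝓞 K × 𝓞 K} {D : K} : EvenRank p D ↔
    H88PL.Ev (p.1 : K) (p.2 : K) D :=
  Iff.rfl

omit [NumberField K] in
private theorem under_iff {L : Type} [Field L] [NumberField L] [Algebra K L]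
    {v : HeightOneSpectrum (𝓞 K)} {w : HeightOneSpectrum (𝓞 L)} :
    w.asIdeal.under (𝓞 K) = v.asIdeal ↔ H76PP.dn K w = v :=
  ⟨fun h => HeightOneSpectrum.ext h, fun h => by rw [← h]; rfl⟩

private theorem loc_iff {N : Type} [Field N] [Algebra K N] {v : HeightOneSpectrum (𝓞 K)}
    {p : 𝓞 K × 𝓞 K} {D : K} :
    Loc N v p D ↔ H36ZO.LocC K N v (D ^ 2 * (p.1 : K)) (D ^ 3 * (p.2 : K)) := by
  unfold Loc H36ZO.LocC
  simp only [under_iff]
  exact Iff.rfl

omit [NumberField K] in
private theorem ind_sq {N : Type} [Field N] [Algebra K N] {J : Type} {p : J → 𝓞 K × 𝓞 K}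
    (h : Indep N p) (j : J) :
    ¬ IsSquare (algebraMap K N (H26OD.dd3 ((p j).1 : K) ((p j).2 : K))) := by
  have h1 := h.2 {j} (Finset.singleton_nonempty j)
  rwa [Finset.prod_singleton] at h1

private theorem local_iff {N : Type} [Field N] [NumberField N] [Algebra K N] [IsGalois K N]
    {J : Type} {p : J → 𝓞 K × 𝓞 K} (h : Indep N p) (j : J) {D : K} (hD : D ≠ 0) :
    Local N (p j) D ↔ H30ZO.RealAt K N ((p j).1 : K) ((p j).2 : K) ∧
      ∀ v, H36CY.DescAt K N v (D ^ 2 * ((p j).1 : K)) (D ^ 3 * ((p j).2 : K)) := by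
  refine and_congr H38OD.realAt_iff.symm (forall_congr' fun v => ?_)
  rw [loc_iff]
  exact H38OD.locC_iff (H38OD.noroot_tw hD (H26OD.noroot_N (h.1 j) (ind_sq h j)))

private theorem near_iff {S : Finset (HeightOneSpectrum (𝓞 K))} {D₀ D : K} (h0 : D₀ ≠ 0) :
    Near S ∅ D₀ D ↔ H88OD.Rel K S D₀ D :=
  ⟨fun h => ⟨h0, h.1, h.2.1, fun s => h.2.2 s (Set.notMem_empty s)⟩,
    fun h => ⟨h.n1, h.sq, fun s _ => h.pos s⟩⟩

private theorem many {N : Type} [Field N] [NumberField N] [Algebra K N] (hN : NormalSylow K N)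
    {J : Type} [Fintype J] [Nonempty J] {p : J → 𝓞 K × 𝓞 K} (hp : Indep N p) {D₀ : K}
    (h0 : D₀ ≠ 0) (he : ∀ j, EvenRank (p j) D₀) (hl : ∀ j, Local N (p j) D₀)
    (S : Finset (HeightOneSpectrum (𝓞 K))) : Many N p S ∅ D₀ := by
  obtain ⟨hgal, P, hP⟩ := hN
  obtain ⟨F, hF, hodd, r, hr⟩ := H88OD.exists_F P hP
  obtain ⟨f, h1, h2⟩ := H88OD.exists_seq (P := fun D => H88OD.Rel K S D₀ D ∧
    ∀ j, H88PL.TvN K N ((p j).1 : K) ((p j).2 : K) D) (fun D h => h.1.n1) (by
      intro X
      obtain ⟨D, g1, g2, g3⟩ := H88OD.main_NJ (F := F) (N := N) hodd hr hp.1 hp.2 h0 he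
        (fun j => ((local_iff hp j h0).1 (hl j)).1) (fun j => ((local_iff hp j h0).1 (hl j)).2) S X
      exact ⟨D, ⟨g1, g2⟩, g3⟩)
  exact ⟨f, fun n => ⟨(near_iff h0).2 (h1 n).1, fun j => over_iff.2 ((h1 n).2 j)⟩, h2⟩

private theorem odd_sylow {G : Type} [Group G] [Finite G] (h : Odd (Nat.card G)) (P : Sylow 2 G) :
    (P : Subgroup G).Normal := by
  have _ : Fact (Nat.Prime 2) := ⟨Nat.prime_two⟩
  obtain ⟨n, hn⟩ := P.isPGroup'.exists_card_eq
  have h1 : Nat.card (P : Subgroup G) ∣ Nat.card G := Subgroup.card_subgroup_dvd_card _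
  have h2 : n = 0 := by
    by_contra hne
    have h3 : 2 ∣ Nat.card (P : Subgroup G) := by
      rw [hn]
      exact dvd_pow_self 2 hne
    exact (Nat.not_even_iff_odd.2 h) (even_iff_two_dvd.2 (h3.trans h1))
  rw [h2, pow_zero] at hn
  rw [Subgroup.card_eq_one.1 hn]
  infer_instance

private theorem no_two {N : Type} [Field N] [NumberField N] [Algebra K N]
    (hodd : Odd (Module.finrank K N)) (k k' : Type) [Field k] [NumberField k] [Field k']
    [NumberField k'] [Algebra K k] [Algebra K k'] [Algebra k k'] [IsScalarTower K k k']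
    [Algebra k' N] [IsScalarTower K k' N] : Module.finrank k k' ≠ 2 := by
  intro two
  have h1 := Module.finrank_mul_finrank K k k'
  have h2 := Module.finrank_mul_finrank K k' N
  rw [← h2, ← h1, two] at hodd
  exact (Nat.not_even_iff_odd.2 hodd) (by
    rw [Nat.even_mul, Nat.even_mul]
    exact Or.inl (Or.inr even_two))

/-- Let `K` be a number field.
(1) Let `N / K` be a finite Galois extension whose Galois group has a normal Sylow 2-subgroup and let
`E_j : y² = x³ + A_j x + B_j`, `j ∈ J`, be finitely many elliptic curves over `K` which satisfy `Indep`.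
Let `D₀ ∈ K` be nonzero and let `R` be a set of real places of `K`. For a finite set `S₀` of primes the
following are equivalent: the twists `E_{j, D₀}` satisfy the local conditions, and their two-Selmer
ranks over `K` are all even, or `R` is not empty and they are all odd; there is `D` near to `D₀` (for `S₀`
and `R`) with `TrivOver` for all `j`; for every finite set `S` of primes there are infinitely many such
`D` modulo squares.
(2) If the degree of the Galois extension `N / K` is odd then it is as in (1) and the local conditions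
always hold.
(3) For every `ε > 0` there is a finite set `T` of totally positive `D ≡ 1 mod m` such that for all but
at most `ε * #(Box K X)` curves in `Box K X` there is `D₀ ∈ T` such that for all Galois extensions
`N / K` of odd degree and all finite sets `S` of primes there are infinitely many `D` modulo squares
near to `D₀` with `TrivOver`. -/
theorem result (K : Type) [Field K] [NumberField K] :
    (∀ (N : Type) [Field N] [NumberField N] [Algebra K N], NormalSylow K N →
      ∀ (J : Type) [Fintype J] [Nonempty J] (p : J → 𝓞 K × 𝓞 K), Indep N p →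
      ∀ (D₀ : K) (R : Set (K →+* ℝ)), D₀ ≠ 0 →
        ∃ S₀ : Finset (HeightOneSpectrum (𝓞 K)),
          List.TFAE [(∀ j, Local N (p j) D₀) ∧ Parity R p D₀,
            ∃ D : K, Near S₀ R D₀ D ∧ ∀ j, TrivOver N (p j) D,
            ∀ S : Finset (HeightOneSpectrum (𝓞 K)), Many N p S R D₀]) ∧
    (∀ (N : Type) [Field N] [NumberField N] [Algebra K N], IsGalois K N →
      Odd (Module.finrank K N) → NormalSylow K N ∧ ∀ (p : 𝓞 K × 𝓞 K) (D : K), Local N p D) ∧
    ∀ m : Ideal (𝓞 K), m ≠ ⊥ → ∀ ε : ℝ, 0 < ε → ∃ (T : Finset (𝓞 K)) (X₀ : ℝ),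
      (∀ D ∈ T, D ≠ 0 ∧ D - 1 ∈ m ∧ ∀ s : K →+* ℝ, 0 < s (D : K)) ∧
      ∀ X : ℝ, X₀ ≤ X → (Box K X).Finite ∧
        ({p : 𝓞 K × 𝓞 K | p ∈ Box K X ∧
          ¬ ∃ D₀ ∈ T, ∀ (N : Type) [Field N] [NumberField N] [Algebra K N], IsGalois K N →
            Odd (Module.finrank K N) → ∀ S : Finset (HeightOneSpectrum (𝓞 K)),
            Many N (fun _ : Unit => p) S ∅ (D₀ : K)}.ncard : ℝ) ≤ ε * ((Box K X).ncard : ℝ) := by
  refine ⟨fun N _ _ _ hN J _ _ p hp D₀ R h0 => ?_, ?_, ?_⟩
  · have hgal := hN.1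
    obtain ⟨S₀, hS₀⟩ := H88PL.exists_S0 (N := N) hp.1 (ind_sq hp) h0 R
    refine ⟨S₀, ?_⟩
    tfae_have 1 → 3 := by
      rintro ⟨hl, he | ⟨⟨s, hs⟩, ho⟩⟩ S
      · obtain ⟨f, h1, h2⟩ := many hN hp h0 he hl S
        exact ⟨f, fun n => ⟨⟨(h1 n).1.1, (h1 n).1.2.1, fun t _ => (h1 n).1.2.2 t
          (Set.notMem_empty t)⟩, (h1 n).2⟩, h2⟩
      · obtain ⟨δ, h1, h2, h3, h4, h5⟩ := H88PL.real_R (N := N) hp.1 hp.2 h0 ho s
          (fun j => ((local_iff hp j h0).1 (hl j)).2) S
        have h6 : D₀ * δ ≠ 0 := mul_ne_zero h0 h1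
        obtain ⟨f, g1, g2⟩ := many hN hp h6 h4
          (fun j => (local_iff hp j h6).2 ⟨((local_iff hp j h0).1 (hl j)).1, h5 j⟩) S
        refine ⟨f, fun n => ⟨⟨(g1 n).1.1, fun v hv => ?_, fun t ht => ?_⟩, (g1 n).2⟩, g2⟩
        · have e : f n / D₀ = f n / (D₀ * δ) * δ := by field_simp
          rw [e, map_mul]
          exact ((g1 n).1.2.1 v hv).mul (h2 v hv)
        · have e : f n / D₀ = f n / (D₀ * δ) * δ := by field_simp
          rw [e, map_mul]
          exact mul_pos ((g1 n).1.2.2 t (Set.notMem_empty t)) (h3 t fun h => ht (by rw [h]; exact hs))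
    tfae_have 3 → 2 := by
      intro h
      obtain ⟨f, h1, -⟩ := h S₀
      exact ⟨f 0, h1 0⟩
    tfae_have 2 → 1 := by
      rintro ⟨D, h1, h2⟩
      obtain ⟨g1, g2⟩ := hS₀ D h1.1 h1.2.1 h1.2.2 fun j => over_iff.1 (h2 j)
      exact ⟨fun j => (local_iff hp j h0).2 (g1 j), g2⟩
    tfae_finish
  · intro N _ _ _ hgal hodd
    refine ⟨⟨hgal, (default : Sylow 2 (N ≃ₐ[K] N)), ?_⟩, fun p D => ⟨?_, fun v => ?_⟩⟩
    · have h1 : Odd (Nat.card (N ≃ₐ[K] N)) := by
        rw [IsGalois.card_aut_eq_finrank]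
        exact hodd
      exact odd_sylow h1 _
    · refine H38OD.realAt_iff.1 fun k k' _ _ _ _ _ _ _ _ _ _ _ _ _ two s => ?_
      exact absurd two (no_two hodd k k')
    · intro k k' _ _ _ _ _ _ _ _ _ _ two
      exact absurd two (no_two hodd k k')
  · intro m hm ε hε
    obtain ⟨T, X₀, h1, h2⟩ := H30OD.de_A K hm hε
    refine ⟨T, X₀, h1, fun X hX => ?_⟩
    have hbox : Box K X = H76PP.Bx K X := by
      ext p
      exact ⟨fun h => ⟨fun s => (h s).1, fun s => (h s).2⟩, fun h s => ⟨h.1 s, h.2 s⟩⟩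
    rw [hbox]
    refine ⟨H76PP.Bx_fin K X, le_trans ?_ (h2 X hX)⟩
    refine Nat.cast_le.2 (Set.ncard_le_ncard ?_ ((H76PP.Bx_fin K X).subset fun p hp => hp.1))
    rintro p ⟨hp, hno⟩
    refine ⟨hp, fun hg => hno ?_⟩
    obtain ⟨D, hD, hT⟩ := hg.tw
    have hD0 : (D : K) ≠ 0 := by
      intro h
      apply (h1 D hD).1
      exact_mod_cast h
    refine ⟨D, hD, fun N _ _ _ hgal hodd S => ?_⟩
    have hk : H88OD.selCard K ((D : K) ^ 2 * (p.1 : K)) ((D : K) ^ 3 * (p.2 : K)) = 4 ^ 0 := by
      rw [pow_zero]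
      exact H88OD.selCard_of_Tv (fun v => v.valuation_le_one p.1) (fun v => v.valuation_le_one p.2)
        hg.irr hg.ne hg.nsq hD0 hT
    obtain ⟨f, g1, g2⟩ := H88OD.main_seq (F := N) hodd (fun v => v.valuation_le_one p.1)
      (fun v => v.valuation_le_one p.2) hg.irr hg.ne hg.nsq hD0 hk S
    exact ⟨f, fun n => ⟨(near_iff hD0).2 (g1 n).1, fun _ => over_iff.2 (g1 n).2⟩, g2⟩

end Pool.Agent.Results.MP_78d38b_nt.TwistCriterion
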